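import Pool.Agent.QPIT.CircW
import Pool.Agent.Helper97.HY.Box
import Pool.Agent.CDep.Val

/-!
# XMP: circuits and zero tests

* `XmpBound`: the bound for nonzero multiples of the permanent;
* `sumprod_log`: sums of `T` products of powers of `S` polynomials which are computed by circuits;
* `circ_log`, `circ_exp`: circuits.
-/

set_option autoImplicit false

namespace Pool.XMP

open Finset MvPolynomial Pool.Agent.Helper41.CD Pool.XD Pool.QPIT

/-- the bound for nonzero multiples of the permanent and polynomials close to them -/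
def XmpBound (C : ℝ) : Prop :=
  ∀ (F K Γ : Type) [Field F] [CharZero F] [Field K] [Algebra F K]
    [LinearOrderedCommGroupWithZero Γ] (v : Valuation K Γ) (k n T S w w0 : ℕ)
    (f : Fin T → Fin S → MvPolynomial (Fin n × Fin n) K) (G : MvPolynomial (Fin n × Fin n) F),
    (∀ x : F, v (algebraMap F K x) ≤ 1) → 2 ≤ S → 1 ≤ w → 1 ≤ w0 →
    (∀ i j, f i j ∈ Cls w0 w S k) → G ≠ 0 →
    Pool.CDep.permP n F ∣ homogeneousComponent G.totalDegree G →
    (∀ m, v (coeff m (∑ i, ∏ j, f i j) - algebraMap F K (coeff m G)) < 1) →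
    (n : ℝ) ≤ C * Real.log (2 * n) * Real.log (2 * n * T) *
      (C * (Real.log S + (w + w0) * Real.log (2 * n))) ^ (Nat.fib (2 * k + 5) - 3)

section numbers

theorem log_aux {n w : ℕ} (hn : 2 ≤ n) (hw : 1 ≤ w) (s : ℕ) :
    Real.log ((s : ℝ) + (n : ℝ) ^ 2 + 1) + (w + w) * Real.log (2 * n) ≤
      12 * Real.log (s + (n : ℝ) ^ w) := by
  have hnr : (2 : ℝ) ≤ n := by exact_mod_cast hn
  have hs0 : (0 : ℝ) ≤ s := Nat.cast_nonneg _
  have hnw : (n : ℝ) ≤ (n : ℝ) ^ w := le_self_pow₀ (by linarith) (by omega)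
  set L := Real.log (s + (n : ℝ) ^ w) with hL
  have hlnn : Real.log (2 * (n : ℝ)) ≤ 2 * Real.log n := by
    have : 2 * Real.log (n : ℝ) = Real.log ((n : ℝ) ^ 2) := by
      rw [Real.log_pow]
      push_cast
      ring
    rw [this]
    exact Real.log_le_log (by linarith) (by nlinarith)
  have hwn : (w : ℝ) * Real.log n ≤ L := by
    rw [← Real.log_pow]
    exact Real.log_le_log (by positivity) (by linarith)
  have hL0 : 0 ≤ L := Real.log_nonneg (by linarith)
  have h2 : Real.log ((s : ℝ) + (n : ℝ) ^ 2 + 1) ≤ 3 * L := by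
    have e1 : 3 * L = Real.log ((s + (n : ℝ) ^ w) ^ 3) := by
      rw [Real.log_pow]
      push_cast
      ring
    rw [e1]
    refine Real.log_le_log (by positivity) ?_
    have h3 : ((s : ℝ) + n) ^ 3 ≤ (s + (n : ℝ) ^ w) ^ 3 :=
      pow_le_pow_left₀ (by positivity) (by linarith) 3
    refine le_trans ?_ h3
    have h4 : (s : ℝ) * 1 ≤ s * (3 * (n : ℝ) ^ 2) := by
      refine mul_le_mul_of_nonneg_left ?_ hs0
      nlinarith
    have h5 : (n : ℝ) ^ 2 + 1 ≤ (n : ℝ) ^ 3 := by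
      have : (n : ℝ) ^ 2 * 2 ≤ (n : ℝ) ^ 2 * n := mul_le_mul_of_nonneg_left hnr (by positivity)
      have h6 : (1 : ℝ) ≤ (n : ℝ) ^ 2 := by nlinarith
      have h7 : (n : ℝ) ^ 3 = (n : ℝ) ^ 2 * n := by ring
      rw [h7]
      linarith
    have h6 : ((s : ℝ) + n) ^ 3 = s ^ 3 + 3 * s ^ 2 * n + s * (3 * (n : ℝ) ^ 2) + (n : ℝ) ^ 3 := by
      ring
    have h7 : (0 : ℝ) ≤ (s : ℝ) ^ 3 + 3 * (s : ℝ) ^ 2 * n := by positivity
    linarith
  have h4 : ((w : ℝ) + w) * Real.log (2 * n) ≤ 4 * L := by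
    have : ((w : ℝ) + w) * Real.log (2 * n) ≤ (w + w) * (2 * Real.log n) :=
      mul_le_mul_of_nonneg_left hlnn (by positivity)
    nlinarith
  linarith

/-- from the bound to sizes -/
theorem exp_le_of_log {C : ℝ} (hC : 1 ≤ C) {E n s w : ℕ} (hn : 2 ≤ n) (hw : 1 ≤ w)
    (h : (n : ℝ) ≤ 2 * C * Real.log (2 * n) * Real.log (2 * n * (max s 1 : ℕ)) *
      (12 * C * Real.log (s + (n : ℝ) ^ w)) ^ E) :
    Real.exp (1 / (12 * C) * (n : ℝ) ^ (1 / ((E : ℝ) + 2))) ≤ s + (n : ℝ) ^ w := by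
  have hnr : (2 : ℝ) ≤ n := by exact_mod_cast hn
  have hs0 : (0 : ℝ) ≤ s := Nat.cast_nonneg _
  have hC0 : 0 < C := by linarith
  have hnw : (n : ℝ) ≤ (n : ℝ) ^ w := le_self_pow₀ (by linarith) (by omega)
  have hsn0 : (0 : ℝ) < s + (n : ℝ) ^ w := by linarith
  rw [← Real.le_log_iff_exp_le hsn0]
  set L := Real.log (s + (n : ℝ) ^ w) with hL
  have hlnn : Real.log (2 * (n : ℝ)) ≤ 2 * L := by
    have : 2 * L = Real.log ((s + (n : ℝ) ^ w) ^ 2) := by
      rw [Real.log_pow]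
      push_cast
      ring
    rw [this]
    refine Real.log_le_log (by linarith) ?_
    have h1 : (n : ℝ) ^ 2 ≤ (s + (n : ℝ) ^ w) ^ 2 := pow_le_pow_left₀ (by linarith) (by linarith) 2
    nlinarith
  have hL0 : 0 ≤ L := Real.log_nonneg (by linarith)
  have hln0 : 0 ≤ Real.log (2 * (n : ℝ)) := Real.log_nonneg (by linarith)
  have hm1 : (1 : ℝ) ≤ (max s 1 : ℕ) := by exact_mod_cast le_max_right s 1
  have h2 : Real.log (2 * (n : ℝ) * (max s 1 : ℕ)) ≤ 3 * L := by
    rw [Real.log_mul (by positivity) (by positivity)]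
    have : Real.log ((max s 1 : ℕ) : ℝ) ≤ L := by
      refine Real.log_le_log (by linarith) ?_
      rw [Nat.cast_max, Nat.cast_one]
      exact max_le (by linarith) (by linarith)
    linarith
  have h2' : 0 ≤ Real.log (2 * (n : ℝ) * (max s 1 : ℕ)) := Real.log_nonneg (by nlinarith)
  have hP0 : 0 ≤ (12 * C * L) ^ E := by positivity
  have h3 : (n : ℝ) ≤ (12 * C * L) ^ (E + 2) := by
    refine h.trans ?_
    have h4 : 2 * C * Real.log (2 * (n : ℝ)) * Real.log (2 * (n : ℝ) * (max s 1 : ℕ)) ≤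
        2 * C * (2 * L) * (3 * L) := by
      refine mul_le_mul (mul_le_mul_of_nonneg_left hlnn (by positivity)) h2 h2' (by positivity)
    have h5 : 2 * C * (2 * L) * (3 * L) ≤ (12 * C * L) ^ 2 := by
      have h6 : 12 * C * (L * L) ≤ (12 * C) * (12 * C) * (L * L) := by
        refine mul_le_mul_of_nonneg_right ?_ (mul_nonneg hL0 hL0)
        nlinarith
      nlinarith
    calc _ ≤ (12 * C * L) ^ 2 * (12 * C * L) ^ E :=
          mul_le_mul_of_nonneg_right (h4.trans h5) hP0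
      _ = _ := by ring
  have hE : (0 : ℝ) < (E : ℝ) + 2 := by positivity
  have h4 : (n : ℝ) ^ (1 / ((E : ℝ) + 2)) ≤ 12 * C * L := by
    calc (n : ℝ) ^ (1 / ((E : ℝ) + 2)) ≤ ((12 * C * L) ^ (E + 2)) ^ (1 / ((E : ℝ) + 2)) :=
          Real.rpow_le_rpow (by positivity) h3 (by positivity)
      _ = 12 * C * L := by
          rw [← Real.rpow_natCast, ← Real.rpow_mul (by positivity)]
          push_cast
          rw [mul_one_div_cancel hE.ne', Real.rpow_one]
  rw [div_mul_eq_mul_div, one_mul, div_le_iff₀ (by positivity)]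
  linarith

theorem fib_three_le (k : ℕ) : 3 ≤ Nat.fib (2 * k + 5) := by
  have : Nat.fib 5 ≤ Nat.fib (2 * k + 5) := Nat.fib_mono (by omega)
  exact le_trans (by decide) this

theorem fib_cast (k : ℕ) :
    ((Nat.fib (2 * k + 5) - 3 : ℕ) : ℝ) + 2 = (Nat.fib (2 * k + 5) : ℝ) - 1 := by
  push_cast [Nat.cast_sub (fib_three_le k)]
  ring

end numbers

section circuits

variable {C : ℝ} {F K Γ : Type} [Field F] [CharZero F] [Field K] [Algebra F K]
  [LinearOrderedCommGroupWithZero Γ] (v : Valuation K Γ)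

/-- powers of gates are elements of the class -/
theorem gate_pow_mem {σ : Type} [Fintype σ] {d w s S : ℕ} (hw : 1 ≤ w)
    (hS : s + Fintype.card σ + 1 ≤ S) {P : Fin s → MvPolynomial σ K} (hP : IsCircuitW d w P)
    (g : Fin s) (e : ℕ) : P g ^ e ∈ Cls w w S d := by
  obtain ⟨lev, H⟩ := hP
  exact powW d ((gate_memW hw hS H d).1 g (H g).1) e

/-- sums of products of powers of polynomials which are computed by circuits -/
theorem sumprod_log (hC : 1 ≤ C) (h : XmpBound C) {k w s S T n : ℕ} (hn : 2 ≤ n) (hw : 1 ≤ w)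
    (hT : 1 ≤ T) (hv : ∀ x : F, v (algebraMap F K x) ≤ 1)
    (f : Fin T → Fin S → MvPolynomial (Fin n × Fin n) K) (e : Fin T → Fin S → ℕ)
    (hf : ∀ i j, ∃ P : Fin s → MvPolynomial (Fin n × Fin n) K, IsCircuitW k w P ∧
      ∃ g, P g = f i j)
    (G : MvPolynomial (Fin n × Fin n) F) (hG : G ≠ 0)
    (hPG : Pool.CDep.permP n F ∣ homogeneousComponent G.totalDegree G)
    (hcl : ∀ m, v (coeff m (∑ i, ∏ j, f i j ^ e i j) - algebraMap F K (coeff m G)) < 1) :
    (n : ℝ) ≤ 2 * C * Real.log (2 * n) * Real.log (2 * n * T) *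
      (12 * C * Real.log ((s + S : ℕ) + (n : ℝ) ^ w)) ^ (Nat.fib (2 * k + 5) - 3) := by
  have hn2 : 1 ≤ n ^ 2 := Nat.one_le_pow _ _ (by omega)
  have hcard : Fintype.card (Fin n × Fin n) = n ^ 2 := by
    rw [Fintype.card_prod, Fintype.card_fin, sq]
  have h0 : ∀ i, ∃ g : Fin (s + S + n ^ 2 + 1) → MvPolynomial (Fin n × Fin n) K,
      (∀ j, g j ∈ Cls w w (s + S + n ^ 2 + 1) k) ∧ ∏ j, g j = ∏ j, f i j ^ e i j := by
    intro i
    refine exists_prod (by rw [Fintype.card_fin]; omega) (one_mem' w w _ k) _ fun j => ?_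
    obtain ⟨P, hP, g, hg⟩ := hf i j
    rw [← hg]
    exact gate_pow_mem hw (by rw [hcard]; omega) hP g _
  choose g hg hgf using h0
  have h1 := h F K Γ v k n T (s + S + n ^ 2 + 1) w w g G hv (by omega) hw hw hg hG hPG
    (by simp only [hgf]; exact hcl)
  have h2 := log_aux hn hw (s + S)
  push_cast at h1 h2 ⊢
  have hnr : (2 : ℝ) ≤ n := by exact_mod_cast hn
  have hTr : (1 : ℝ) ≤ T := by exact_mod_cast hT
  have hC0 : 0 < C := by linarith
  have hln0 : 0 ≤ Real.log (2 * (n : ℝ)) := Real.log_nonneg (by linarith)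
  have hlT0 : 0 ≤ Real.log (2 * (n : ℝ) * T) := Real.log_nonneg (by nlinarith)
  have h3' : 0 ≤ C * (Real.log ((s : ℝ) + S + (n : ℝ) ^ 2 + 1) + (w + w) * Real.log (2 * n)) := by
    have : 0 ≤ Real.log ((s : ℝ) + S + (n : ℝ) ^ 2 + 1) := Real.log_nonneg (by
      have h5 : (0 : ℝ) ≤ (s : ℝ) + S + (n : ℝ) ^ 2 := by positivity
      linarith)
    positivity
  have h3 : C * (Real.log ((s : ℝ) + S + (n : ℝ) ^ 2 + 1) + (w + w) * Real.log (2 * n)) ≤
      12 * C * Real.log ((s : ℝ) + S + (n : ℝ) ^ w) := by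
    have := mul_le_mul_of_nonneg_left h2 hC0.le
    linarith
  have hA : 0 ≤ C * Real.log (2 * n) * Real.log (2 * n * T) := by positivity
  refine h1.trans (mul_le_mul (by nlinarith) (pow_le_pow_left₀ h3' h3 _) (pow_nonneg h3' _) ?_)
  nlinarith

/-- circuits -/
theorem circ_log (hC : 1 ≤ C) (h : XmpBound C) {k w s n : ℕ} (hn : 2 ≤ n) (hw : 1 ≤ w)
    (hv : ∀ x : F, v (algebraMap F K x) ≤ 1)
    (P : Fin s → MvPolynomial (Fin n × Fin n) K) (hP : IsCircuitW (k + 1) w P) (g : Fin s)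
    (G : MvPolynomial (Fin n × Fin n) F) (hG : G ≠ 0)
    (hPG : Pool.CDep.permP n F ∣ homogeneousComponent G.totalDegree G)
    (hcl : ∀ m, v (coeff m (P g) - algebraMap F K (coeff m G)) < 1) :
    (n : ℝ) ≤ 2 * C * Real.log (2 * n) * Real.log (2 * n * (max s 1 : ℕ)) *
      (12 * C * Real.log (s + (n : ℝ) ^ w)) ^ (Nat.fib (2 * k + 5) - 3) := by
  obtain ⟨f, hf, hfg⟩ := circuit_sumW (S := s + n ^ 2 + 1) hw
    (by rw [Fintype.card_prod, Fintype.card_fin, sq]) hP g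
  have hn2 : 1 ≤ n ^ 2 := Nat.one_le_pow _ _ (by omega)
  have hs1 : 1 ≤ s := by
    have := g.2
    omega
  have h1 := h F K Γ v k n (s + 1) (s + n ^ 2 + 1) w w f G hv (by omega) hw hw hf hG hPG
    (by rwa [hfg])
  have h2 := log_aux hn hw s
  rw [max_eq_left hs1]
  push_cast at h1
  have hnr : (2 : ℝ) ≤ n := by exact_mod_cast hn
  have hsr : (1 : ℝ) ≤ s := by exact_mod_cast hs1
  have hC0 : 0 < C := by linarith
  have hln0 : 0 ≤ Real.log (2 * (n : ℝ)) := Real.log_nonneg (by linarith)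
  have h3' : 0 ≤ C * (Real.log ((s : ℝ) + (n : ℝ) ^ 2 + 1) + (w + w) * Real.log (2 * n)) := by
    have : 0 ≤ Real.log ((s : ℝ) + (n : ℝ) ^ 2 + 1) := Real.log_nonneg (by
      have h5 : (0 : ℝ) ≤ (s : ℝ) + (n : ℝ) ^ 2 := by positivity
      linarith)
    positivity
  have h3 : C * (Real.log ((s : ℝ) + (n : ℝ) ^ 2 + 1) + (w + w) * Real.log (2 * n)) ≤
      12 * C * Real.log ((s : ℝ) + (n : ℝ) ^ w) := by
    have := mul_le_mul_of_nonneg_left h2 hC0.le
    linarith
  have h4 : Real.log (2 * (n : ℝ) * (s + 1)) ≤ 2 * Real.log (2 * n * s) := by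
    have e1 : 2 * Real.log (2 * (n : ℝ) * s) = Real.log ((2 * n * s) ^ 2) := by
      rw [Real.log_pow]
      push_cast
      ring
    rw [e1]
    refine Real.log_le_log (by positivity) ?_
    have h6 : 2 * (n : ℝ) * (s + 1) ≤ (2 * n * s) * 2 := by nlinarith
    have h7 : (2 * (n : ℝ) * s) * 2 ≤ (2 * n * s) * (2 * n * s) := by
      refine mul_le_mul_of_nonneg_left ?_ (by positivity)
      nlinarith
    rw [sq]
    linarith
  have h4' : 0 ≤ Real.log (2 * (n : ℝ) * (s + 1)) := Real.log_nonneg (by nlinarith)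
  calc (n : ℝ) ≤ C * Real.log (2 * n) * Real.log (2 * n * (s + 1)) *
        (C * (Real.log ((s : ℝ) + (n : ℝ) ^ 2 + 1) + (w + w) * Real.log (2 * n))) ^
          (Nat.fib (2 * k + 5) - 3) := h1
    _ ≤ C * Real.log (2 * n) * (2 * Real.log (2 * n * s)) *
        (12 * C * Real.log ((s : ℝ) + (n : ℝ) ^ w)) ^ (Nat.fib (2 * k + 5) - 3) := by
        refine mul_le_mul (mul_le_mul_of_nonneg_left h4 (by positivity))
          (pow_le_pow_left₀ h3' h3 _) (pow_nonneg h3' _) ?_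
        have := h4'.trans h4
        positivity
    _ = _ := by ring

/-- the size of circuits -/
theorem circ_exp (hC : 1 ≤ C) (h : XmpBound C) {k w s n : ℕ} (hn : 2 ≤ n) (hw : 1 ≤ w)
    (hv : ∀ x : F, v (algebraMap F K x) ≤ 1)
    (P : Fin s → MvPolynomial (Fin n × Fin n) K) (hP : IsCircuitW (k + 1) w P) (g : Fin s)
    (G : MvPolynomial (Fin n × Fin n) F) (hG : G ≠ 0)
    (hPG : Pool.CDep.permP n F ∣ homogeneousComponent G.totalDegree G)
    (hcl : ∀ m, v (coeff m (P g) - algebraMap F K (coeff m G)) < 1) :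
    Real.exp (1 / (12 * C) * (n : ℝ) ^ (1 / ((Nat.fib (2 * k + 5) : ℝ) - 1))) ≤
      s + (n : ℝ) ^ w := by
  have h1 := exp_le_of_log hC hn hw (circ_log v hC h hn hw hv P hP g G hG hPG hcl)
  rwa [fib_cast] at h1

/-- the two parameter bound -/
theorem sumprod_le (hC : 1 ≤ C) (h : XmpBound C) {k w s S T n : ℕ} (hn : 2 ≤ n) (hw : 1 ≤ w)
    (hT : 1 ≤ T) (hv : ∀ x : F, v (algebraMap F K x) ≤ 1)
    (f : Fin T → Fin S → MvPolynomial (Fin n × Fin n) K) (e : Fin T → Fin S → ℕ)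
    (hf : ∀ i j, ∃ P : Fin s → MvPolynomial (Fin n × Fin n) K, IsCircuitW k w P ∧
      ∃ g, P g = f i j)
    (G : MvPolynomial (Fin n × Fin n) F) (hG : G ≠ 0)
    (hPG : Pool.CDep.permP n F ∣ homogeneousComponent G.totalDegree G)
    (hcl : ∀ m, v (coeff m (∑ i, ∏ j, f i j ^ e i j) - algebraMap F K (coeff m G)) < 1) :
    1 / (12 * C) * (n : ℝ) ≤ Real.log (2 * n) * Real.log (2 * n * T) *
      (Real.log (s + S + (n : ℝ) ^ w) / (1 / (12 * C))) ^ (Nat.fib (2 * k + 5) - 3) := by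
  have h1 := sumprod_log v hC h hn hw hT hv f e hf G hG hPG hcl
  have hC0 : 0 < C := by linarith
  have h12 : Real.log (s + S + (n : ℝ) ^ w) / (1 / (12 * C)) =
      12 * C * Real.log (s + S + (n : ℝ) ^ w) := by
    rw [div_div_eq_mul_div, div_one, mul_comm]
  push_cast at h1
  rw [h12, div_mul_eq_mul_div, one_mul, div_le_iff₀ (by positivity)]
  refine h1.trans ?_
  have hnr : (2 : ℝ) ≤ n := by exact_mod_cast hn
  have hTr : (1 : ℝ) ≤ T := by exact_mod_cast hT
  have hln0 : 0 ≤ Real.log (2 * (n : ℝ)) := Real.log_nonneg (by linarith)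
  have hlT0 : 0 ≤ Real.log (2 * (n : ℝ) * T) := Real.log_nonneg (by nlinarith)
  have hL0 : 0 ≤ Real.log ((s : ℝ) + S + (n : ℝ) ^ w) := by
    refine Real.log_nonneg ?_
    have h5 : (1 : ℝ) ≤ (n : ℝ) ^ w := one_le_pow₀ (by linarith)
    have h6 : (0 : ℝ) ≤ (s : ℝ) + S := by positivity
    linarith
  have hX : 0 ≤ Real.log (2 * n) * Real.log (2 * n * T) *
      (12 * C * Real.log (s + S + (n : ℝ) ^ w)) ^ (Nat.fib (2 * k + 5) - 3) := by positivity
  nlinarith

end circuits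

end Pool.XMP
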