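import Pool.Agent.XMP.Perm
import Pool.Agent.XM.Bridge

/-!
# XMP, row Y2: the generic rank for the permanent and the paired permanent
-/

set_option autoImplicit false
set_option linter.unusedSectionVars false

namespace Pool.XMP

open Finset MvPolynomial Pool.XD Pool.XP Pool.XM

/-- the constant term of the polynomial of a code -/
theorem constantCoeff_codeQ {I A : Type} [Fintype I] [DecidableEq I] [Fintype A] [DecidableEq A]
    [Nonempty I] (Om : Finset (I → A)) (F : Type) [CommRing F] :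
    constantCoeff (codeQ Om F) = 0 := by
  classical
  unfold codeQ
  rw [map_sum]
  refine sum_eq_zero fun s _ => ?_
  rw [map_prod]
  exact prod_eq_zero (mem_univ (Classical.arbitrary I)) (constantCoeff_X _ _)

/-- **row Y2** -/
theorem rank_pair_le (F : Type) [Field F] [CharZero F] {R Q n : ℕ} (hRQ : 1 ≤ R + Q)
    (hn : 8 * (R + Q) + 1 ≤ n) : ∃ D : Fin n × Fin n → Option (Row R Q × Col R Q),
      ∀ G : MvPolynomial (Fin n × Fin n) F, G ≠ 0 →
      Pool.CDep.permP n F ∣ MvPolynomial.homogeneousComponent G.totalDegree G →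
      ∀ LU LV : ℕ, 2 * R ≤ LU →
      ∃ V : MvPolynomial (Fin n × Fin n) F, V ≠ 0 ∧ ∀ c : Fin n × Fin n → F,
        MvPolynomial.eval c V ≠ 0 → MvPolynomial.eval c G ≠ 0 ∧
        (opM (rty tyR) (codeQ (Om R Q) F) LU LV (LU - 2 * R) (LV + 2 * Q)).rank ≤
          (2 * (R + Q)) * (opM (rty tyR) (lgg (F := F) (2 * (R + Q)) (sub D c G)
            (MvPolynomial.C (MvPolynomial.eval c G))) LU LV (LU - 2 * R) (LV + 2 * Q)).rank := by
  classical
  have hn1 : 1 ≤ n := by omega
  let z : Fin n := ⟨0, hn1⟩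
  obtain ⟨C0, D, hz0⟩ := perm_mode F R Q n hn z
  obtain ⟨a, haff⟩ := perm_aff n z F
  have hne : Nonempty (Row R Q) := by
    rcases Nat.eq_zero_or_pos R with h | h
    · exact ⟨Sum.inr ⟨0, by omega⟩⟩
    · exact ⟨Sum.inl ⟨0, by omega⟩⟩
  refine ⟨D, fun G hG hPG LU LV hLU => ?_⟩
  set π : Fin n × Fin n → MvPolynomial (Row R Q × Col R Q) F := fun p => (D p).elim 0 X with hπ
  have hπ1 : ∀ p, (π p).IsHomogeneous 1 := by
    intro p
    show ((D p).elim 0 X : MvPolynomial (Row R Q × Col R Q) F).IsHomogeneous 1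
    rcases D p with _ | l
    · exact isHomogeneous_zero _ _ _
    · exact isHomogeneous_X _ _
  have hsub : ∀ (y : Fin n × Fin n → F) (P : MvPolynomial (Fin n × Fin n) F),
      subP π y P = sub D y P := by
    intro y P
    rw [hπ, subP_eq_sub]
  have hsubP : ∀ P : MvPolynomial (Fin n × Fin n) F, subP π C0 P =
      aeval (fun p => (C (C0 p) : MvPolynomial _ F) + (D p).elim 0 X) P := by
    intro P
    rw [hsub]
    rfl
  have hU : subP π C0 (Pool.CDep.permP n F) = codeQ (Om R Q) F := by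
    have h1 := hz0 0
    rw [hsubP, ← zero_add (codeQ (Om R Q) F), ← h1]
    congr 2
    funext p
    split_ifs <;> ring
  have hA : subP π C0 a = 1 := by
    have h1 := haff (MvPolynomial (Row R Q × Col R Q) F)
      (fun p => (C (C0 p) : MvPolynomial _ F) + (D p).elim 0 X) 1
    rw [hz0 1, ← hsubP, ← hsubP, hU, one_mul] at h1
    exact (add_left_cancel (h1.symm.trans (add_comm _ _))).symm ▸ rfl
  have hC00 : eval C0 (Pool.CDep.permP n F) = 0 := by
    have h1 := constantCoeff_subP π (fun p => (hπ1 p).coeff_eq_zero (d := 0)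
      (by rw [map_zero]; exact zero_ne_one)) C0 (Pool.CDep.permP n F)
    rw [hU, constantCoeff_codeQ] at h1
    exact h1.symm
  obtain ⟨V, hV, hV'⟩ := gen_rank (Pool.CDep.permP n F) (permP_prime n hn1 F) (z, z) π hπ1 a haff
    C0 hC00 (codeQ (Om R Q) F) hU hA (2 * (R + Q)) (by omega)
    (exM (rty tyR) LU LV (LU - 2 * R) (LV + 2 * Q))
    (fun i j m h => (degree_exM (rty tyR) hLU i j m h).trans (by ring)) G hG hPG
  refine ⟨V, hV, fun c hc => ?_⟩
  obtain ⟨h1, h2⟩ := hV' c hc
  refine ⟨h1, ?_⟩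
  rw [em_exM] at h2
  have h3 : em (exM (rty tyR) LU LV (LU - 2 * R) (LV + 2 * Q)) (lgc π (2 * (R + Q)) c G) =
      opM (rty tyR) (lgg (F := F) (2 * (R + Q)) (sub D c G) (C (eval c G))) LU LV
        (LU - 2 * R) (LV + 2 * Q) := by
    rw [← em_exM]
    refine em_congr _ fun i j m _ => ?_
    unfold lgc
    rw [hsub]
    rfl
  rw [h3] at h2
  exact h2

end Pool.XMP
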