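import Pool.Agent.XMP.Chain

/-!
# XMP: the numbers (row Y3)
-/

set_option autoImplicit false

namespace Pool.XMP

open Finset Real Pool.XD Pool.XP

/-- the last step: from the inequality for the pairs to the bound -/
theorem final_le {K K2 n N T : ℕ} {y Bc G P D2 : ℝ} {XL YL : ℝ} (hBc : 1 ≤ Bc) (hN : 1 ≤ N)
    (hn : 1 ≤ n) (hy0 : 1 / 4 ≤ y) (hy1 : y ≤ 1 / 2) (hT : 1 ≤ T)
    (hG : G = log (2 * n * T)) (hP : 1 ≤ P) (hNle : (N : ℝ) ≤ D2 * G * P)
    (hX : XL = exp (1 / 4 - 1 / (8 * N))) (hY : YL = exp (y / 2 - 1 / (8 * N)))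
    (hg : ∀ R Q : ℕ, 1 ≤ R → 1 ≤ Q → 8 * (R + Q) + 1 ≤ n → (R : ℝ) ≤ 2 * y * Q →
      exp (1 / 2) ^ (2 * R) ≤ ((2 * (R + Q) : ℕ) + 1 : ℝ) ^ K * (XL ^ (2 * R) * YL ^ (2 * Q)) *
        (Bc * (2 * (R + Q) + 1 : ℝ) ^ K2)) :
    (n : ℝ) ≤ (32 * D2 * (2 * (1 + log Bc) + (K + K2)) + 60) * log (2 * n) * G * P := by
  have hlB : 0 ≤ log Bc := log_nonneg hBc
  have hKr : (0 : ℝ) ≤ K := Nat.cast_nonneg _
  have hK2r : (0 : ℝ) ≤ K2 := Nat.cast_nonneg _
  have hl2 : (0.6931 : ℝ) < log 2 := by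
    have := log_two_gt_d9
    linarith
  have hnr : (1 : ℝ) ≤ n := by exact_mod_cast hn
  have hTr : (1 : ℝ) ≤ T := by exact_mod_cast hT
  have hl2n : log 2 ≤ log (2 * n) := log_le_log (by norm_num) (by linarith)
  have hG1 : log 2 ≤ G := by
    rw [hG]
    apply log_le_log (by norm_num)
    have : (2 : ℝ) * 1 * 1 ≤ 2 * n * T :=
      mul_le_mul (by linarith) hTr (by norm_num) (by linarith)
    linarith
  obtain ⟨E, hE⟩ : ∃ E : ℝ, E = 2 * (1 + log Bc) + (K + K2) := ⟨_, rfl⟩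
  have hE0 : 0 ≤ E := by rw [hE]; linarith
  obtain ⟨M, hM⟩ : ∃ M : ℕ, M = (n - 1) / 8 := ⟨_, rfl⟩
  have hM1 : 8 * M + 1 ≤ n := by omega
  have hM2 : n ≤ 8 * M + 8 := by omega
  have hM2r : (n : ℝ) ≤ 8 * M + 8 := by exact_mod_cast hM2
  have hGP : 0.6931 ≤ G * P := by
    have h1 : G * 1 ≤ G * P := mul_le_mul_of_nonneg_left hP (by linarith)
    linarith
  have hlGP : 0.48 ≤ log (2 * n) * (G * P) := by
    have h1 : (0.6931 : ℝ) * 0.6931 ≤ log (2 * n) * (G * P) :=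
      mul_le_mul (by linarith) hGP (by norm_num) (by linarith)
    linarith
  have hmain : (M : ℝ) ≤ 4 * (D2 * G * P) * (E * log (2 * n)) + 2 := by
    have hlast : 0 ≤ 4 * (D2 * G * P) * (E * log (2 * n)) :=
      mul_nonneg (mul_nonneg (by norm_num) ((Nat.cast_nonneg N).trans hNle))
        (mul_nonneg hE0 (by linarith))
    rcases Nat.lt_or_ge M 3 with h3 | h3
    · have : (M : ℝ) ≤ 2 := by exact_mod_cast (show M ≤ 2 by omega)
      linarith
    · obtain ⟨R, Q, hR1, hQ1, hRQ, hb1, hb2⟩ := exists_RQ hy0 hy1 h3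
      have hRQr : (R : ℝ) + Q = M := by exact_mod_cast hRQ
      have h4 := hg R Q hR1 hQ1 (by omega) hb1
      rw [hX, hY] at h4
      have h5 := pairs_le' hN hBc hb2 h4
      rw [hRQr] at h5
      have h6 : log (2 * (M : ℝ) + 1) ≤ log (2 * n) := by
        apply log_le_log (by positivity)
        have : 8 * (M : ℝ) + 1 ≤ n := by exact_mod_cast hM1
        have h0 : (0 : ℝ) ≤ M := Nat.cast_nonneg _
        linarith
      have h7 : ((K : ℝ) + K2) * log (2 * (M : ℝ) + 1) ≤ (K + K2) * log (2 * n) :=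
        mul_le_mul_of_nonneg_left h6 (by linarith)
      have h8 : 1 + (K + K2) * log (2 * n) + log Bc ≤ E * log (2 * n) := by
        have h10 : (1 + log Bc) * 1 ≤ (1 + log Bc) * (2 * log (2 * n)) :=
          mul_le_mul_of_nonneg_left (by linarith) (by linarith)
        have h12 : E * log (2 * n) =
            (1 + log Bc) * (2 * log (2 * n)) + (K + K2) * log (2 * n) := by
          rw [hE]
          ring
        rw [h12]
        linarith
      have h9 : (M : ℝ) / (4 * N) ≤ E * log (2 * n) := by linarith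
      have hNr : (0 : ℝ) < N := by exact_mod_cast hN
      rw [div_le_iff₀ (by linarith)] at h9
      have h11 : E * log (2 * n) * (4 * N) ≤ E * log (2 * n) * (4 * (D2 * G * P)) :=
        mul_le_mul_of_nonneg_left (by linarith) (mul_nonneg hE0 (by linarith))
      linarith
  rw [← hE]
  have h1 : (32 * D2 * E + 60) * log (2 * n) * G * P =
      8 * (4 * (D2 * G * P) * (E * log (2 * n))) + 60 * (log (2 * n) * (G * P)) := by ring
  rw [h1]
  linarith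

/-- **ROW Y3** -/
theorem xmp_final (K K2 : ℕ) (Bc : ℝ) (hBc : 1 ≤ Bc) : ∃ C : ℝ, 1 ≤ C ∧
    ∀ k n T S w w0 : ℕ, 1 ≤ T → 2 ≤ S → 1 ≤ w → 1 ≤ w0 →
    ∃ (y : ℝ) (X Y : ℕ → ℝ), 0 < y ∧ y ≤ 1 / 2 ∧ X 0 = 1 ∧ Y 0 = 1 ∧
      (∀ i, 0 < X i) ∧ (∀ i, 0 < Y i) ∧
      (∀ d ≤ n, ∀ i ≤ 2 * k, NumD d (S * (d + 1) ^ (8 * (w0 + w) + 16)) (Real.exp (1 / 2))
        (Real.exp y) (X i) (Y i) (X (i + 1)) (Y (i + 1))) ∧
      (∀ d ≤ n, NumD d (T * (d + 1) ^ 18) (Real.exp (1 / 2)) (Real.exp y) (X (2 * k + 1))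
        (Y (2 * k + 1)) (X (2 * k + 2)) (Y (2 * k + 2))) ∧
      ((∀ R Q : ℕ, 1 ≤ R → 1 ≤ Q → 8 * (R + Q) + 1 ≤ n → (R : ℝ) ≤ 2 * y * Q →
          Real.exp (1 / 2) ^ (2 * R) ≤ ((2 * (R + Q) : ℕ) + 1 : ℝ) ^ K *
            (X (2 * k + 2) ^ (2 * R) * Y (2 * k + 2) ^ (2 * Q)) *
              (Bc * (2 * (R + Q) + 1 : ℝ) ^ K2)) →
        (n : ℝ) ≤ C * Real.log (2 * n) * Real.log (2 * n * T) *
          (C * (Real.log S + (w + w0) * Real.log (2 * n))) ^ (Nat.fib (2 * k + 5) - 3)) := by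
  have hlB : 0 ≤ log Bc := log_nonneg hBc
  have hKr : (0 : ℝ) ≤ K := Nat.cast_nonneg _
  have hK2r : (0 : ℝ) ≤ K2 := Nat.cast_nonneg _
  obtain ⟨D2, hD2⟩ : ∃ D2 : ℝ, D2 = 4 * (18 * 75) := ⟨_, rfl⟩
  obtain ⟨E1, hE1⟩ : ∃ E1 : ℝ, E1 = 32 * D2 * (2 * (1 + log Bc) + (K + K2)) + 60 := ⟨_, rfl⟩
  obtain ⟨D1, hD1⟩ : ∃ D1 : ℝ, D1 = 18 * 69 := ⟨_, rfl⟩
  have hE1' : 1 ≤ E1 := by
    rw [hE1, hD2]
    have : 0 ≤ 32 * (4 * (18 * 75)) * (2 * (1 + log Bc) + ((K : ℝ) + K2)) := by positivity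
    linarith
  have hD1' : 1 ≤ D1 := by
    rw [hD1]
    norm_num
  refine ⟨E1 * D1, one_le_mul_of_one_le_of_one_le hE1' hD1', ?_⟩
  intro k n T S w w0 hT hS hw hw0
  have hSr : (2 : ℝ) ≤ S := by exact_mod_cast hS
  have hTr : (1 : ℝ) ≤ T := by exact_mod_cast hT
  have hl2 : (0.6931 : ℝ) < log 2 := by
    have := log_two_gt_d9
    linarith
  have hlS : log 2 ≤ log S := log_le_log (by norm_num) hSr
  have hlT : 0 ≤ log T := log_nonneg hTr
  obtain ⟨κ, hκ⟩ : ∃ κ : ℝ, κ = S * (n + 1 : ℝ) ^ (16 * (w + w0)) := ⟨_, rfl⟩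
  obtain ⟨κ', hκ'⟩ : ∃ κ' : ℝ, κ' = T * (n + 1 : ℝ) ^ 18 := ⟨_, rfl⟩
  have hn1 : (1 : ℝ) ≤ n + 1 := by
    have : (0 : ℝ) ≤ n := Nat.cast_nonneg _
    linarith
  have hκ1 : 1 ≤ κ := by
    rw [hκ]
    exact one_le_mul_of_one_le_of_one_le (by linarith) (one_le_pow₀ hn1)
  have hκ1' : 1 ≤ κ' := by
    rw [hκ']
    exact one_le_mul_of_one_le_of_one_le hTr (one_le_pow₀ hn1)
  have hlκ : log κ = log S + 16 * (w + w0) * log (n + 1) := by
    rw [hκ, log_mul (by positivity) (by positivity), log_pow]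
    push_cast
    ring
  have hlκ' : log κ' = log T + 18 * log (n + 1) := by
    rw [hκ', log_mul (by positivity) (by positivity), log_pow]
    push_cast
    ring
  have hlog1 : 0 ≤ log ((n : ℝ) + 1) := log_nonneg hn1
  obtain ⟨a, ha⟩ : ∃ a : ℕ, a = ⌈4 * log κ⌉₊ := ⟨_, rfl⟩
  obtain ⟨b, hb⟩ : ∃ b : ℕ, b = ⌈4 * log κ'⌉₊ + 1 := ⟨_, rfl⟩
  have hlκ0 : 0.6931 < log κ := by
    rw [hlκ]
    have : 0 ≤ (16 : ℝ) * (w + w0) * log (n + 1) := mul_nonneg (by positivity) hlog1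
    linarith
  have hlκ0' : 0 ≤ log κ' := log_nonneg hκ1'
  have ha1 : 4 * log κ ≤ a := by rw [ha]; exact Nat.le_ceil _
  have ha2 : (a : ℝ) ≤ 4 * log κ + 1 := by
    rw [ha]
    exact (Nat.ceil_lt_add_one (by linarith)).le
  have ha0 : 1 ≤ a := by
    have : (0 : ℝ) < a := by linarith
    have : 0 < a := by exact_mod_cast this
    omega
  have hb1 : 4 * log κ' ≤ b := by
    rw [hb]
    push_cast
    have := Nat.le_ceil (4 * log κ')
    linarith
  have hb2 : (b : ℝ) ≤ 4 * log κ' + 2 := by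
    rw [hb]
    push_cast
    have := (Nat.ceil_lt_add_one (show 0 ≤ 4 * log κ' by linarith)).le
    linarith
  have hb0 : 1 ≤ b := by omega
  obtain ⟨N, y, X, Y, hN, hNle, hy0, hy1, hX0, hY0, hX, hY, hch, hch', hXL, hYL⟩ :=
    chain_two (2 * k + 1) a b ha0 hb0 κ κ' hκ1 hκ1' ha1 hb1
  have hdn : ∀ d : ℕ, d ≤ n → ∀ a b : ℕ, a ≤ b →
      ((d : ℝ) + 1) ^ a ≤ ((n : ℝ) + 1) ^ b := by
    intro d hd a b hab
    have h2 : ((d : ℝ) + 1) ≤ n + 1 := by
      have : (d : ℝ) ≤ n := by exact_mod_cast hd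
      linarith
    have h3 : (0 : ℝ) ≤ (d : ℝ) + 1 := by positivity
    exact (pow_le_pow_left₀ h3 h2 _).trans (pow_le_pow_right₀ hn1 hab)
  refine ⟨y, X, Y, by linarith, hy1, hX0, hY0, hX, hY, ?_, ?_, ?_⟩
  · intro d hd i hi c e hce _
    rcases hch i (by omega) c e hce with h1 | h1 | h1
    · exact Or.inr (Or.inl h1)
    · exact Or.inl h1
    · refine Or.inr (Or.inr (le_trans ?_ h1))
      have h2 := hX i
      have h3 := hY i
      apply mul_le_mul_of_nonneg_right _ (by positivity)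
      rw [hκ]
      exact mul_le_mul_of_nonneg_left (hdn d hd _ _ (by omega)) (Nat.cast_nonneg _)
  · intro d hd c e hce _
    rcases hch' c e hce with h1 | h1 | h1
    · exact Or.inr (Or.inl h1)
    · exact Or.inl h1
    · refine Or.inr (Or.inr (le_trans ?_ h1))
      have h2 := hX (2 * k + 1)
      have h3 := hY (2 * k + 1)
      apply mul_le_mul_of_nonneg_right _ (by positivity)
      rw [hκ']
      exact mul_le_mul_of_nonneg_left (hdn d hd _ _ le_rfl) (Nat.cast_nonneg _)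
  intro hg
  rcases Nat.eq_zero_or_pos n with hn0 | hn0
  · subst hn0
    simp
  have hnr : (1 : ℝ) ≤ n := by exact_mod_cast hn0
  obtain ⟨Λ, hΛ⟩ : ∃ Λ : ℝ, Λ = log S + (w + w0) * log (2 * n) := ⟨_, rfl⟩
  have hl2n : log 2 ≤ log (2 * n) := log_le_log (by norm_num) (by linarith)
  have hln : log (n + 1) ≤ log (2 * n) := log_le_log (by linarith) (by linarith)
  have hww : (2 : ℝ) ≤ w + w0 := by
    have h1 : (1 : ℝ) ≤ w := by exact_mod_cast hw
    have h2 : (1 : ℝ) ≤ w0 := by exact_mod_cast hw0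
    linarith
  have hwl : 2 * log 2 ≤ (w + w0) * log (2 * n) :=
    mul_le_mul hww hl2n (by linarith) (by linarith)
  have hΛ1 : 1 ≤ Λ := by rw [hΛ]; linarith
  have hlκΛ : log κ ≤ 17 * Λ := by
    rw [hlκ, hΛ]
    have h1 : (16 : ℝ) * ((w + w0) * log (n + 1)) ≤ 16 * ((w + w0) * log (2 * n)) :=
      mul_le_mul_of_nonneg_left (mul_le_mul_of_nonneg_left hln (by linarith)) (by norm_num)
    have h3 : 0 ≤ ((w : ℝ) + w0) * log (2 * n) := by linarith
    linarith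
  have haΛ : 18 * (a : ℝ) ≤ D1 * Λ := by
    rw [hD1]
    linarith
  obtain ⟨G, hG⟩ : ∃ G : ℝ, G = log (2 * n * T) := ⟨_, rfl⟩
  have hG' : G = log (2 * n) + log T := by
    rw [hG]
    exact log_mul (by positivity) (by positivity)
  have hbG : (b : ℝ) ≤ 75 * G := by
    rw [hG']
    linarith
  obtain ⟨p, hp⟩ : ∃ p : ℕ, p = Nat.fib (2 * k + 5) - 3 := ⟨_, rfl⟩
  rw [show 2 * k + 1 + 4 = 2 * k + 5 by ring, ← hp] at hNle
  obtain ⟨P, hP⟩ : ∃ P : ℝ, P = (D1 * Λ) ^ p := ⟨_, rfl⟩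
  have hP1 : 1 ≤ P := by
    rw [hP]
    exact one_le_pow₀ (one_le_mul_of_one_le_of_one_le hD1' hΛ1)
  have hNr : (N : ℝ) ≤ D2 * G * P := by
    have h1 : (N : ℝ) ≤ 4 * (18 * b) * (18 * a) ^ p := by exact_mod_cast hNle
    have h2 : (18 * (a : ℝ)) ^ p ≤ P := by
      rw [hP]
      exact pow_le_pow_left₀ (by positivity) haΛ p
    calc (N : ℝ) ≤ 4 * (18 * b) * (18 * a) ^ p := h1
      _ ≤ 4 * (18 * (75 * G)) * P := by
        apply mul_le_mul (by linarith) h2 (by positivity) (by linarith)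
      _ = D2 * G * P := by
        rw [hD2]
        ring
  have hfin := final_le hBc hN hn0 hy0 hy1 hT hG hP1 hNr hXL hYL hg
  rw [← hE1] at hfin
  rw [← hΛ, ← hG, ← hp]
  have hΛ0 : 0 ≤ Λ := by linarith
  have hG0 : 0 ≤ G := by rw [hG']; linarith
  have hl0 : 0 ≤ log (2 * (n : ℝ)) := by linarith
  calc (n : ℝ) ≤ E1 * log (2 * n) * G * P := hfin
    _ ≤ E1 * D1 * log (2 * n) * G * (E1 * D1 * Λ) ^ p := by
      apply mul_le_mul
      · apply mul_le_mul_of_nonneg_right _ hG0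
        exact mul_le_mul_of_nonneg_right
          (le_mul_of_one_le_right (zero_le_one.trans hE1') hD1') hl0
      · rw [hP]
        apply pow_le_pow_left₀ (by positivity)
        exact mul_le_mul_of_nonneg_right
          (le_mul_of_one_le_left (zero_le_one.trans hD1') hE1') hΛ0
      · positivity
      · positivity

end Pool.XMP
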