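import Pool.Agent.XP.Assembly
import Pool.Agent.XM.Assembly
import Pool.Agent.XMP.Bridge
import Pool.Agent.XMP.Num

/-!
# XMP: multiples of the permanent, with the exponents of the paired permanent: the assembly

`core`: the core inequality for the paired permanent with `2 R` rows of type `true` and `2 Q` rows
of type `false`, for a polynomial over a valued field `K` which is close to a polynomial `G` over
a trivially valued field `F` whose form of top degree is a multiple of the permanent.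
`xmp`: the lower bound.
-/

set_option autoImplicit false

namespace Pool.XMP

open Finset Pool.XD Pool.XP Pool.XM Pool.Agent.Helper87.D3 Pool.Agent.Helper41.CD

/-- the rank of the matrix of a code does not depend on the field of characteristic zero -/
theorem rank_codeQ_field {I A : Type} [Fintype I] [DecidableEq I] [Fintype A] [DecidableEq A]
    (ty : I × A → Bool) (Om : Finset (I → A)) (F : Type) [Field F] [CharZero F]
    (a b a' b' : ℕ) : (opM ty (codeQ Om ℝ) a b a' b').rank =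
      (opM ty (codeQ Om F) a b a' b').rank := by
  have h1 := opM_map ty (Int.castRingHom ℝ) (codeQ Om ℤ) a b a' b'
  have h2 := opM_map ty (Int.castRingHom F) (codeQ Om ℤ) a b a' b'
  rw [map_codeQ] at h1 h2
  rw [← h1, ← h2]
  exact rank_map_eq _ _ (RingHom.injective_int _) (RingHom.injective_int _) _

section core

variable {F K Γ : Type} [Field F] [CharZero F] [Field K] [CharZero K] [Algebra F K]
  [LinearOrderedCommGroupWithZero Γ] (v : Valuation K Γ)

/-- **the core inequality** -/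
theorem core (hv : ∀ x : F, v (algebraMap F K x) ≤ 1) {n T S w w0 k R Q : ℕ} {y : ℝ}
    {X Y : ℕ → ℝ}
    (f : Fin T → Fin S → MvPolynomial (Fin n × Fin n) K) (hf : ∀ i j, f i j ∈ Cls w0 w S k)
    (G : MvPolynomial (Fin n × Fin n) F) (hG : G ≠ 0)
    (hPG : Pool.CDep.permP n F ∣ MvPolynomial.homogeneousComponent G.totalDegree G)
    (hcl : ∀ m, v (MvPolynomial.coeff m (∑ i, ∏ j, f i j) -
      algebraMap F K (MvPolynomial.coeff m G)) < 1)
    (hR : 1 ≤ R) (hQ : 1 ≤ Q) (hy : 0 < y) (hy1 : y ≤ 1 / 2) (hn : 8 * (R + Q) + 1 ≤ n)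
    (hRQ : (R : ℝ) ≤ 2 * y * Q)
    (hX : ∀ i, 0 < X i) (hY : ∀ i, 0 < Y i) (hX0 : X 0 = 1) (hY0 : Y 0 = 1)
    (hnum : ∀ i ≤ 2 * k, NumD (2 * (R + Q)) (S * ((2 * (R + Q) : ℕ) + 1) ^ (8 * (w0 + w) + 16))
        (Real.exp (1 / 2)) (Real.exp y) (X i) (Y i) (X (i + 1)) (Y (i + 1)))
    (hnum' : NumD (2 * (R + Q)) (T * ((2 * (R + Q) : ℕ) + 1) ^ 18) (Real.exp (1 / 2)) (Real.exp y)
        (X (2 * k + 1)) (Y (2 * k + 1)) (X (2 * k + 2)) (Y (2 * k + 2))) :
      Real.exp (1 / 2) ^ (2 * R) ≤ ((2 * (R + Q) : ℕ) + 1 : ℝ) ^ 8 *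
        (X (2 * k + 2) ^ (2 * R) * Y (2 * k + 2) ^ (2 * Q)) *
          (Real.exp 2 * (2 * (R + Q) + 1 : ℝ) ^ 6) := by
  classical
  obtain ⟨d, hd⟩ : ∃ d, d = 2 * (R + Q) := ⟨_, rfl⟩
  obtain ⟨ty, hty⟩ : ∃ ty : Row R Q × Col R Q → Bool, ty = rty tyR := ⟨_, rfl⟩
  obtain ⟨r, hr⟩ : ∃ r, r = 2 * R := ⟨_, rfl⟩
  obtain ⟨E, hE⟩ : ∃ E, E = 2 * Q := ⟨_, rfl⟩
  have hnU := nU_eq R Q
  have hnV := nV_eq R Q
  rw [← hty] at hnU hnV
  have h1U : 1 ≤ nU ty := by
    rw [hnU]
    exact Nat.mul_pos (by omega) (by omega)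
  have h1V : 1 ≤ nV ty := by
    rw [hnV]
    exact Nat.mul_pos (by omega) (by omega)
  obtain ⟨LU, LV, hL1, hL2, hL3, hL4, hL5⟩ := params hR hQ hnU hnV hy
  -- the generic rank
  obtain ⟨D, hD⟩ := rank_pair_le F (R := R) (Q := Q) (n := n) (by omega) hn
  obtain ⟨V, hV, hV0⟩ := hD G hG hPG LU LV (by omega)
  have hV' : ∀ c : Fin n × Fin n → F, MvPolynomial.eval c V ≠ 0 → MvPolynomial.eval c G ≠ 0 ∧
      (opM ty (codeQ (Om R Q) F) LU LV (LU - r) (LV + E)).rank ≤
        d * (opM ty (lgg (F := F) d (sub D c G) (MvPolynomial.C (MvPolynomial.eval c G)))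
          LU LV (LU - r) (LV + E)).rank := by
    intro c hc
    rw [hty, hr, hE, hd]
    exact hV0 c hc
  rw [← hr] at hL1
  -- the machine
  obtain ⟨SU, SV, hSU, hSV⟩ := exists_sub ty (K := K)
  have hfV := filt_VV ty (K := K)
  have hfU := filt_UU ty (K := K)
  have he1 : (0 : ℝ) < Real.exp (1 / 2) := Real.exp_pos _
  have hey : (0 : ℝ) < Real.exp y := Real.exp_pos _
  obtain ⟨W, hW, hmach⟩ := machine_log (σ := Fin n × Fin n) (K := K)
    (B := MvPolynomial (Row R Q × Col R Q) K)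
    (Pool.CD.cost_Nu hfV hfU hey.le he1.le) (Pool.CD.big_Bi hfV hfU) he1 hey
    (Pool.CD.leaf_Bi hfV hfU (Real.exp y) (Real.exp (1 / 2))) SU SV
    (fun a ha b hb => by
      have h1 := Pool.CD.Nu.ofMul (V := VV ty K) (U := UU ty K)
        (hv := Real.exp y) (hu := Real.exp (1 / 2)) ((hSU a).1 ha) ((hSV b).1 hb)
      rwa [pow_zero, pow_zero, mul_one] at h1)
    (PhiN ty D) (PhiN_mem _ D) (PhiN_zero _ D)
    (fun c p hp => by
      obtain ⟨α, hα, β, hβ, h1⟩ := PhiN_one ty D c p hp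
      exact ⟨α, (hSU α).2 hα, β, (hSV β).2 hβ, h1⟩)
    (d := d) (w0 := w0) (w := w) (S := S) (T := T)
    hX hY hX0 hY0 (by rw [hd]; exact hnum) (by rw [hd]; exact hnum') f hf
  have hinj : Function.Injective (algebraMap F K) := (algebraMap F K).injective
  obtain ⟨c, hc⟩ := exists_nat_eval (W * MvPolynomial.map (algebraMap F K) V)
    (mul_ne_zero hW ((map_ne_zero_iff _ (MvPolynomial.map_injective _ hinj)).2 hV))
  rw [map_mul] at hc
  have hNu := hmach (fun l => (c l : K)) (left_ne_zero_of_mul hc) r E (by omega)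
  have hcV : MvPolynomial.eval (fun p => (c p : F)) V ≠ 0 := by
    intro h0
    apply right_ne_zero_of_mul hc
    have h1 : (fun l => (c l : K)) = fun l => algebraMap F K ((c l : F)) := by
      funext l
      rw [map_natCast]
    rw [MvPolynomial.eval_map, h1]
    have h2 := MvPolynomial.eval₂_comp_left (algebraMap F K) (RingHom.id F)
      (fun p => (c p : F)) V
    rw [RingHom.comp_id] at h2
    have h3 : MvPolynomial.eval₂ (RingHom.id F) (fun p => (c p : F)) V = 0 := h0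
    rw [h3, map_zero] at h2
    exact h2.symm
  obtain ⟨hG0, hrank⟩ := hV' _ hcV
  -- the matrix
  set G1 : MvPolynomial (Fin n × Fin n) K := ∑ i, ∏ j, f i j with hG1
  have hclose := (rank_log_close hv ty D c G G1 hcl hG0 d LU LV (LU - r) (LV + E)).2
  set P := Pool.Agent.Helper87.D3.cf r E (Polynomial.aeval ((MvPolynomial.eval (fun l => (c l : K)) G1)⁻¹ •
    PhiN ty D (fun l => (c l : K)) G1 - 1) (logP K d)) with hP
  have hPm : P ∈ UU ty K r ∧ P ∈ VV ty K E := by
    have hM := Pool.CD.big_Bi hfV hfU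
    have h1 : InB (Pool.CD.Bi (VV ty K) (UU ty K))
        ((MvPolynomial.eval (fun l => (c l : K)) G1)⁻¹ •
          PhiN ty D (fun l => (c l : K)) G1 - 1) :=
      inB_sub (inB_smul _ (PhiN_mem _ D _ _)) (InB.one hM)
    exact inB_aeval hM h1 _ r E
  have hrank1 := rank_opM_le ty he1 hey (LU := LU) (LV := LV) (r := r) (E := E)
    (by omega) h1U h1V hL2 hL3 P hPm.1 hPm.2 hNu
  have hopP : opM ty P LU LV (LU - r) (LV + E) =
      opM ty (Polynomial.aeval ((MvPolynomial.eval (fun l => (c l : K)) G1)⁻¹ •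
        sub D (fun l => (c l : K)) G1 - 1) (logP K d)) LU LV (LU - r) (LV + E) :=
    opM_aeval_PhiN ty D _ _ _ _ (by omega) E LV
  rw [← hopP] at hclose
  have hrank2 : (opM ty (codeQ (Om R Q) ℝ) LU LV (LU - r) (LV + E)).rank ≤
      d * (opM ty P LU LV (LU - r) (LV + E)).rank := by
    rw [rank_codeQ_field ty (Om R Q) F]
    exact hrank.trans (Nat.mul_le_mul_left d hclose)
  -- the count
  have hcount := code_count (A := Col R Q) tyR (Om R Q) (LU := LU) (LV := LV) (r := r) (E := E)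
    (by rw [card_rows_true, hr]) (by rw [card_rows_false, hE]) (by rw [hr]; omega)
    (oU := Real.exp (1 / 2 + 1 / (R + Q))) (oV := Real.exp (-y))
    (Real.exp_pos _).le (Real.exp_pos _).le (by rw [← hty]; exact h1U)
    (by rw [← hty]; exact h1V) (by rw [← hty, hr]; exact hL4)
    (by rw [← hty]; exact hL5)
  rw [← hty] at hcount
  have hRr : (1 : ℝ) ≤ R := by exact_mod_cast hR
  have hQr : (1 : ℝ) ≤ Q := by exact_mod_cast hQ
  have hZ := ZB_le (R := R) (Q := Q) (x := 1 / 2) (y := y) (δ := 1 / (R + Q)) hR hQ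
    (by norm_num) (by positivity) (by nlinarith) (by nlinarith)
  have hδ : Real.exp (2 * R * (1 / (R + Q))) ≤ Real.exp 2 := by
    apply Real.exp_le_exp.2
    rw [mul_one_div, div_le_iff₀ (by positivity)]
    nlinarith
  -- conclusion
  have hD0pos : (0 : ℝ) < (((nU ty).multichoose LU * (nV ty).multichoose LV : ℕ) : ℝ) := by
    have h1 : 0 < (nU ty).multichoose LU := by
      rw [Nat.multichoose_eq]
      exact Nat.choose_pos (by omega)
    have h2 : 0 < (nV ty).multichoose LV := by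
      rw [Nat.multichoose_eq]
      exact Nat.choose_pos (by omega)
    exact Nat.cast_pos.2 (Nat.mul_pos h1 h2)
  have hM0 : (0 : ℝ) < ((Om R Q).card : ℝ) ^ 2 := by
    have h1 : 0 < (Om R Q).card := (Om_nonempty R Q).card_pos
    exact pow_pos (Nat.cast_pos.2 h1) 2
  have hd0 : (0 : ℝ) ≤ d := Nat.cast_nonneg _
  have hrank3 : ((opM ty (codeQ (Om R Q) ℝ) LU LV (LU - r) (LV + E)).rank : ℝ) ≤
      d * ((opM ty P LU LV (LU - r) (LV + E)).rank : ℝ) := by
    exact_mod_cast hrank2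
  have hXY : 0 < X (2 * k + 2) ^ r * Y (2 * k + 2) ^ E :=
    mul_pos (pow_pos (hX _) _) (pow_pos (hY _) _)
  have hrank4 : (d * ((opM ty P LU LV (LU - r) (LV + E)).rank : ℝ)) * Real.exp (1 / 2) ^ r ≤
      (((d : ℝ) + 1) ^ 8 * (X (2 * k + 2) ^ r * Y (2 * k + 2) ^ E)) *
        (((nU ty).multichoose LU * (nV ty).multichoose LV : ℕ) : ℝ) := by
    have h3 : (d : ℝ) * ((d : ℝ) + 1) ^ 7 ≤ ((d : ℝ) + 1) ^ 8 := by
      rw [pow_succ ((d : ℝ) + 1) 7, mul_comm]
      exact mul_le_mul_of_nonneg_left (by linarith) (by positivity)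
    calc (d * ((opM ty P LU LV (LU - r) (LV + E)).rank : ℝ)) * Real.exp (1 / 2) ^ r =
          d * (((opM ty P LU LV (LU - r) (LV + E)).rank : ℝ) * Real.exp (1 / 2) ^ r) := by ring
      _ ≤ d * ((((d : ℝ) + 1) ^ 7 * (X (2 * k + 2) ^ r * Y (2 * k + 2) ^ E)) *
          (((nU ty).multichoose LU * (nV ty).multichoose LV : ℕ) : ℝ)) :=
          mul_le_mul_of_nonneg_left hrank1 hd0
      _ = (d * ((d : ℝ) + 1) ^ 7) * ((X (2 * k + 2) ^ r * Y (2 * k + 2) ^ E) *
          (((nU ty).multichoose LU * (nV ty).multichoose LV : ℕ) : ℝ)) := by ring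
      _ ≤ ((d : ℝ) + 1) ^ 8 * ((X (2 * k + 2) ^ r * Y (2 * k + 2) ^ E) *
          (((nU ty).multichoose LU * (nV ty).multichoose LV : ℕ) : ℝ)) :=
          mul_le_mul_of_nonneg_right h3 (by positivity)
      _ = _ := by ring
  have h1 := fin_arith hD0pos hM0 (Real.exp_pos (1 / 2)).le (Real.exp_pos 2).le
    (show (0 : ℝ) ≤ (2 * (R + Q) + 1 : ℝ) ^ 6 by positivity)
    hrank3 hcount (Nat.cast_nonneg _) (hZ.trans (mul_le_mul_of_nonneg_left
      (mul_le_mul_of_nonneg_right hδ (by positivity)) hM0.le)) hrank4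
  rw [hr, hE, hd] at h1
  exact h1

end core

/-- **MULTIPLES OF THE PERMANENT ARE HARD AT EVERY CONSTANT DEPTH**, valued form, with the
exponents of the paired permanent and the logarithm of the number of summands to the first
power -/
theorem xmp : ∃ C : ℝ, 1 ≤ C ∧
    ∀ (F K Γ : Type) [Field F] [CharZero F] [Field K] [Algebra F K]
      [LinearOrderedCommGroupWithZero Γ] (v : Valuation K Γ) (k n T S w w0 : ℕ)
      (f : Fin T → Fin S → MvPolynomial (Fin n × Fin n) K) (G : MvPolynomial (Fin n × Fin n) F),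
      (∀ x : F, v (algebraMap F K x) ≤ 1) → 2 ≤ S → 1 ≤ w → 1 ≤ w0 →
      (∀ i j, f i j ∈ Cls w0 w S k) → G ≠ 0 →
      Pool.CDep.permP n F ∣ MvPolynomial.homogeneousComponent G.totalDegree G →
      (∀ m, v (MvPolynomial.coeff m (∑ i, ∏ j, f i j) -
        algebraMap F K (MvPolynomial.coeff m G)) < 1) →
      (n : ℝ) ≤ C * Real.log (2 * n) * Real.log (2 * n * T) *
        (C * (Real.log S + (w + w0) * Real.log (2 * n))) ^ (Nat.fib (2 * k + 5) - 3) := by
  have hB : (1 : ℝ) ≤ Real.exp 2 := Real.one_le_exp (by norm_num)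
  obtain ⟨C, hC, hfin⟩ := xmp_final 8 6 (Real.exp 2) hB
  refine ⟨C, hC, ?_⟩
  intro F K Γ _ _ _ _ _ v k n T S w w0 f G hv hS hw hw0 hf hG hPG hcl
  have : CharZero K := (RingHom.charZero_iff (algebraMap F K).injective).1 inferInstance
  obtain ⟨y, X, Y, hy, hy1, hX0, hY0, hX, hY, hnum, hnum', h⟩ :=
    hfin k n T S w w0 (T_pos v hv f G hG hcl) hS hw hw0
  refine h fun R Q hR hQ hn hRQ => ?_
  exact core v hv f hf G hG hPG hcl hR hQ hy hy1 hn hRQ hX hY hX0 hY0
    (fun i hi => by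
      have h2 := hnum (2 * (R + Q)) (by omega) i hi
      exact h2)
    (by
      have h2 := hnum' (2 * (R + Q)) (by omega)
      exact h2)

end Pool.XMP
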