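import Mathlib

/-!
# XMP: numbers from a continued fraction with a sequence of parameters
-/

set_option autoImplicit false

namespace Pool.XMP

/-- the vectors `(B, A)`; index `j` is `i + 1` -/
def cfv (σ : ℕ → ℕ) : ℕ → ℕ × ℕ
  | 0 => (0, 1)
  | 1 => (1, 1)
  | (j + 2) => (8 * σ j * ((cfv σ j).1 + (cfv σ j).2) * (cfv σ (j + 1)).1 + (cfv σ j).1,
      8 * σ j * ((cfv σ j).1 + (cfv σ j).2) * (cfv σ (j + 1)).2 + (cfv σ j).2)

/-- the sum of the entries -/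
def cs (σ : ℕ → ℕ) (j : ℕ) : ℕ := (cfv σ j).1 + (cfv σ j).2

variable {σ : ℕ → ℕ}

theorem cf_fst (j : ℕ) : (cfv σ (j + 2)).1 = 8 * σ j * cs σ j * (cfv σ (j + 1)).1 + (cfv σ j).1 := by
  rw [cfv, cs]

theorem cf_snd (j : ℕ) : (cfv σ (j + 2)).2 = 8 * σ j * cs σ j * (cfv σ (j + 1)).2 + (cfv σ j).2 := by
  rw [cfv, cs]

theorem cs_succ (j : ℕ) : cs σ (j + 2) = 8 * σ j * cs σ j * cs σ (j + 1) + cs σ j := by
  rw [cs, cf_fst, cf_snd, cs, cs]
  ring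

theorem cs_pos (j : ℕ) : 1 ≤ cs σ j := by
  have h : 1 ≤ cs σ j ∧ 1 ≤ cs σ (j + 1) := by
    induction j with
    | zero => exact ⟨by simp [cs, cfv], by simp [cs, cfv]⟩
    | succ j ih =>
      refine ⟨ih.2, ?_⟩
      rw [cs_succ]
      have := ih.1
      omega
  exact h.1

theorem fst_le_snd (j : ℕ) : (cfv σ j).1 ≤ (cfv σ j).2 := by
  have h : (cfv σ j).1 ≤ (cfv σ j).2 ∧ (cfv σ (j + 1)).1 ≤ (cfv σ (j + 1)).2 := by
    induction j with
    | zero => exact ⟨by simp [cfv], by simp [cfv]⟩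
    | succ j ih =>
      refine ⟨ih.2, ?_⟩
      rw [cf_fst, cf_snd]
      exact Nat.add_le_add (Nat.mul_le_mul_left _ ih.2) ih.1
  exact h.1

theorem fst_pos (hσ : ∀ j, 1 ≤ σ j) (j : ℕ) : 1 ≤ (cfv σ (j + 1)).1 := by
  induction j with
  | zero => simp [cfv]
  | succ j ih =>
    rw [cf_fst]
    have h1 : 1 ≤ 8 * σ j * cs σ j * (cfv σ (j + 1)).1 := by
      have := cs_pos (σ := σ) j
      exact Nat.mul_pos (Nat.mul_pos (by have := hσ j; omega) this) ih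
    omega

theorem snd_le (hσ : ∀ j, 1 ≤ σ j) (j : ℕ) : (cfv σ (j + 1)).2 ≤ 2 * (cfv σ (j + 1)).1 := by
  have h : (cfv σ (j + 1)).2 ≤ 2 * (cfv σ (j + 1)).1 ∧
      (cfv σ (j + 2)).2 ≤ 2 * (cfv σ (j + 2)).1 := by
    induction j with
    | zero =>
      refine ⟨by simp [cfv], ?_⟩
      rw [cf_fst, cf_snd]
      have h0 : cs σ 0 = 1 := by simp [cs, cfv]
      have h1 := hσ 0
      rw [h0]
      simp only [cfv]
      omega
    | succ j ih =>
      refine ⟨ih.2, ?_⟩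
      rw [cf_fst (j + 1), cf_snd (j + 1)]
      calc 8 * σ (j + 1) * cs σ (j + 1) * (cfv σ (j + 1 + 1)).2 + (cfv σ (j + 1)).2 ≤
          8 * σ (j + 1) * cs σ (j + 1) * (2 * (cfv σ (j + 1 + 1)).1) + 2 * (cfv σ (j + 1)).1 :=
            Nat.add_le_add (Nat.mul_le_mul_left _ ih.2) ih.1
        _ = _ := by ring
  exact h.1

theorem fst_mono (hσ : ∀ j, 1 ≤ σ j) (j : ℕ) : (cfv σ j).1 ≤ (cfv σ (j + 1)).1 := by
  cases j with
  | zero => simp [cfv]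
  | succ j =>
    rw [cf_fst]
    have h1 : (cfv σ (j + 1)).1 ≤ 8 * σ j * cs σ j * (cfv σ (j + 1)).1 := by
      have := cs_pos (σ := σ) j
      exact Nat.le_mul_of_pos_left _ (Nat.mul_pos (by have := hσ j; omega) this)
    omega

theorem fst_step (j : ℕ) : 8 * σ j * cs σ j * (cfv σ (j + 1)).1 ≤ (cfv σ (j + 2)).1 := by
  rw [cf_fst]
  omega

/-- the determinant is `1` or `-1` -/
theorem det_sq (j : ℕ) :
    (((cfv σ (j + 1)).2 : ℤ) * (cfv σ j).1 - (cfv σ (j + 1)).1 * (cfv σ j).2) ^ 2 = 1 := by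
  induction j with
  | zero => simp [cfv]
  | succ j ih =>
    rw [cf_fst, cf_snd]
    push_cast
    rw [← ih]
    ring

/-- the last vector in terms of two earlier ones -/
theorem exists_coord (hσ : ∀ j, 1 ≤ σ j) (n : ℕ) : ∀ d j : ℕ, j + 1 + d = n → ∃ x y : ℕ, 1 ≤ x ∧ y ≤ x ∧
    (cfv σ n).1 = x * (cfv σ (j + 1)).1 + y * (cfv σ j).1 ∧
    (cfv σ n).2 = x * (cfv σ (j + 1)).2 + y * (cfv σ j).2 := by
  intro d
  induction d with
  | zero =>
    intro j hj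
    exact ⟨1, 0, le_rfl, by omega, by rw [← hj]; simp, by rw [← hj]; simp⟩
  | succ d ih =>
    intro j hj
    obtain ⟨x, y, hx, hy, h1, h2⟩ := ih (j + 1) (by omega)
    refine ⟨x * (8 * σ j * cs σ j) + y, x, ?_, ?_, ?_, ?_⟩
    · have := cs_pos (σ := σ) j
      have h3 : 1 ≤ x * (8 * σ j * cs σ j) := Nat.mul_pos hx (Nat.mul_pos (by have := hσ j; omega) this)
      omega
    · have := cs_pos (σ := σ) j
      have h3 : x ≤ x * (8 * σ j * cs σ j) := Nat.le_mul_of_pos_right _ (Nat.mul_pos (by have := hσ j; omega) this)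
      omega
    · rw [h1, show j + 1 + 1 = j + 2 from rfl, cf_fst]
      ring
    · rw [h2, show j + 1 + 1 = j + 2 from rfl, cf_snd]
      ring

/-- imbalance -/
theorem imbalance (hσ : ∀ j, 1 ≤ σ j) (n j : ℕ) (hj : j + 1 ≤ n) (b e : ℕ)
    (hbe : 2 * (b + e) ≤ cs σ (j + 1)) :
    ((cfv σ n).1 : ℤ) * (b + e) ≤
      2 * (cfv σ (j + 1)).1 * cs σ j * |((cfv σ n).2 : ℤ) * b - (cfv σ n).1 * e| := by
  obtain ⟨x, y, hx, hy, h1, h2⟩ := exists_coord hσ n (n - (j + 1)) j (by omega)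
  have hdet := det_sq (σ := σ) j
  have hmono := fst_mono hσ j
  obtain ⟨B1, hB1⟩ : ∃ B1 : ℤ, B1 = ((cfv σ (j + 1)).1 : ℤ) := ⟨_, rfl⟩
  obtain ⟨A1, hA1⟩ : ∃ A1 : ℤ, A1 = ((cfv σ (j + 1)).2 : ℤ) := ⟨_, rfl⟩
  obtain ⟨B0, hB0⟩ : ∃ B0 : ℤ, B0 = ((cfv σ j).1 : ℤ) := ⟨_, rfl⟩
  obtain ⟨A0, hA0⟩ : ∃ A0 : ℤ, A0 = ((cfv σ j).2 : ℤ) := ⟨_, rfl⟩
  have hS0 : (cs σ j : ℤ) = B0 + A0 := by rw [hB0, hA0, cs]; push_cast; ring
  have hS1 : (cs σ (j + 1) : ℤ) = B1 + A1 := by rw [hB1, hA1, cs]; push_cast; ring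
  have hS0pos : (0 : ℤ) < B0 + A0 := by
    rw [← hS0]
    exact_mod_cast cs_pos (σ := σ) j
  rw [← hB1, ← hA1, ← hB0, ← hA0] at hdet
  obtain ⟨D, hD⟩ : ∃ D : ℤ, D = A1 * B0 - B1 * A0 := ⟨_, rfl⟩
  rw [← hD] at hdet
  have hbe' : 2 * ((b : ℤ) + e) ≤ B1 + A1 := by
    rw [← hS1]
    exact_mod_cast hbe
  have hmono' : B0 ≤ B1 := by rw [hB0, hB1]; exact_mod_cast hmono
  have hB0n : 0 ≤ B0 := by rw [hB0]; positivity
  have hB1n : 0 ≤ B1 := by rw [hB1]; positivity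
  have hx' : (1 : ℤ) ≤ x := by exact_mod_cast hx
  have hy' : (y : ℤ) ≤ x := by exact_mod_cast hy
  have hy0 : (0 : ℤ) ≤ y := by positivity
  have hbn : (0 : ℤ) ≤ (b : ℤ) + e := by positivity
  -- coordinates
  obtain ⟨ξ, hξ⟩ : ∃ ξ : ℤ, ξ = D * (A1 * b - B1 * e) := ⟨_, rfl⟩
  obtain ⟨η, hη⟩ : ∃ η : ℤ, η = -(D * (A0 * b - B0 * e)) := ⟨_, rfl⟩
  have hsum : (b : ℤ) + e = ξ * (B0 + A0) + η * (B1 + A1) := by
    have : ξ * (B0 + A0) + η * (B1 + A1) = D * (A1 * B0 - B1 * A0) * (b + e) := by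
      rw [hξ, hη]; ring
    rw [this, ← hD, ← sq, hdet, one_mul]
  have hval : ((cfv σ n).2 : ℤ) * b - (cfv σ n).1 * e = D * (x * ξ - y * η) := by
    have h3 : D * (x * ξ - y * η) = D ^ 2 * (x * (A1 * b - B1 * e) + y * (A0 * b - B0 * e)) := by
      rw [hξ, hη]; ring
    rw [h3, hdet, one_mul, h1, h2]
    push_cast
    rw [← hB1, ← hA1, ← hB0, ← hA0]
    ring
  have hDabs : |D| = 1 := by
    have := sq_abs D
    rw [hdet] at this
    exact (pow_eq_one_iff_of_nonneg (abs_nonneg D) two_ne_zero).1 this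
  have habs : |((cfv σ n).2 : ℤ) * b - (cfv σ n).1 * e| = |x * ξ - y * η| := by
    rw [hval, abs_mul, hDabs, one_mul]
  -- the three cases
  have hkey : (x : ℤ) * (b + e) ≤ (B0 + A0) * |x * ξ - y * η| := by
    rcases lt_trichotomy η 0 with hneg | hzero | hpos
    · have h40 : η * (B1 + A1) ≤ 0 := mul_nonpos_of_nonpos_of_nonneg hneg.le (by linarith)
      have h4 : (b : ℤ) + e ≤ ξ * (B0 + A0) := by linarith
      have h6 : x * ξ ≤ |x * ξ - y * η| := by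
        refine le_trans ?_ (le_abs_self _)
        have h7 : (y : ℤ) * η ≤ 0 := mul_nonpos_of_nonneg_of_nonpos hy0 hneg.le
        linarith
      calc (x : ℤ) * (b + e) ≤ x * (ξ * (B0 + A0)) := mul_le_mul_of_nonneg_left h4 (by omega)
        _ = (B0 + A0) * (x * ξ) := by ring
        _ ≤ _ := mul_le_mul_of_nonneg_left h6 hS0pos.le
    · rw [hzero] at hsum ⊢
      rw [zero_mul, add_zero] at hsum
      rw [mul_zero, sub_zero, hsum]
      calc (x : ℤ) * (ξ * (B0 + A0)) = (B0 + A0) * (x * ξ) := by ring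
        _ ≤ _ := mul_le_mul_of_nonneg_left (le_abs_self _) hS0pos.le
    · have h40 : 1 * (B1 + A1) ≤ η * (B1 + A1) :=
        mul_le_mul_of_nonneg_right (by linarith) (by linarith)
      have h4 : (b : ℤ) + e ≤ -ξ * (B0 + A0) := by linarith
      have h6 : x * (-ξ) ≤ |x * ξ - y * η| := by
        refine le_trans ?_ (neg_le_abs _)
        have h7 : (0 : ℤ) ≤ y * η := mul_nonneg hy0 hpos.le
        linarith
      calc (x : ℤ) * (b + e) ≤ x * (-ξ * (B0 + A0)) := mul_le_mul_of_nonneg_left h4 (by omega)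
        _ = (B0 + A0) * (x * (-ξ)) := by ring
        _ ≤ _ := mul_le_mul_of_nonneg_left h6 hS0pos.le
  have hBn : ((cfv σ n).1 : ℤ) ≤ 2 * B1 * x := by
    rw [h1]
    push_cast
    rw [← hB1, ← hB0]
    have h3 : (y : ℤ) * B0 ≤ x * B1 := mul_le_mul hy' hmono' hB0n (by linarith)
    linarith
  rw [habs, hS0, ← hB1]
  calc ((cfv σ n).1 : ℤ) * (b + e) ≤ (2 * B1 * x) * (b + e) := mul_le_mul_of_nonneg_right hBn hbn
    _ = 2 * B1 * (x * (b + e)) := by ring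
    _ ≤ 2 * B1 * ((B0 + A0) * |x * ξ - y * η|) :=
        mul_le_mul_of_nonneg_left hkey (by positivity)
    _ = 2 * B1 * (B0 + A0) * |x * ξ - y * η| := by ring

end Pool.XMP
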