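import Pool.Agent.XMP.Cf

/-!
# XMP: numbers from a continued fraction: the chain and the size of the numbers
-/

set_option autoImplicit false

namespace Pool.XMP

variable {σ : ℕ → ℕ}

/-- the numbers of the chain, general parameters -/
theorem cf_numbers (L : ℕ) (hL : 1 ≤ L) (hσ : ∀ j, 1 ≤ σ j) :
    ∃ (A B s : ℕ) (c : ℕ → ℝ) (τ : ℕ → ℕ), 1 ≤ s ∧ 1 ≤ B ∧ B ≤ A ∧ A ≤ 2 * B ∧
      (∀ i, 1 ≤ i → i ≤ L → ∀ b e : ℕ, 1 ≤ b + e → b + e ≤ τ i →
        2 * c i * (b + e) ≤ |(A : ℝ) * b - B * e|) ∧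
      (σ 0 : ℝ) * B ≤ τ 1 * (B / 4) ∧ c 1 ≤ (B : ℝ) / 8 ∧
      (∀ i, 1 ≤ i → i + 1 ≤ L → (σ i : ℝ) * B ≤ τ (i + 1) * (c i / 2) ∧ c (i + 1) ≤ c i / 4) ∧
      c L = 1 / (4 * s) ∧ s * A ≤ cs σ L * cs σ (L + 1) := by
  have _ := hL
  have hBpos : ∀ j, (0 : ℝ) < ((cfv σ (j + 1)).1 : ℝ) := fun j => by
    exact_mod_cast fst_pos hσ j
  have hSpos : ∀ j, (0 : ℝ) < (cs σ j : ℝ) := fun j => by
    exact_mod_cast cs_pos (σ := σ) j
  refine ⟨(cfv σ (L + 1)).2, (cfv σ (L + 1)).1, cs σ L,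
    fun i => ((cfv σ (L + 1)).1 : ℝ) / (4 * (cfv σ (i + 1)).1 * cs σ i),
    fun i => cs σ (i + 1) / 2, cs_pos L, fst_pos hσ L, fst_le_snd _, snd_le hσ L, ?_, ?_, ?_, ?_,
    ?_, ?_⟩
  · intro i hi hiL b e _ hbe
    have hbe' : b + e ≤ cs σ (i + 1) / 2 := hbe
    have h1 := imbalance hσ (L + 1) i (by omega) b e (by omega)
    have h2 : ((cfv σ (L + 1)).1 : ℝ) * (b + e) ≤ 2 * (cfv σ (i + 1)).1 * cs σ i *
        |((cfv σ (L + 1)).2 : ℝ) * b - (cfv σ (L + 1)).1 * e| := by exact_mod_cast h1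
    have h3 := hBpos i
    have h4 := hSpos i
    have h5 : 2 * (((cfv σ (L + 1)).1 : ℝ) / (4 * (cfv σ (i + 1)).1 * cs σ i)) * (b + e) =
        (((cfv σ (L + 1)).1 : ℝ) * (b + e)) / (2 * (cfv σ (i + 1)).1 * cs σ i) := by
      field_simp
      ring
    rw [h5, div_le_iff₀ (by positivity)]
    linarith
  · have h0 : cs σ 2 = 16 * σ 0 + 1 := by
      rw [cs_succ]
      simp [cs, cfv]
      ring
    have h1 : (8 * σ 0 : ℕ) = cs σ (1 + 1) / 2 := by
      rw [show 1 + 1 = 2 from rfl, h0]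
      omega
    change (σ 0 : ℝ) * ((cfv σ (L + 1)).1 : ℝ) ≤ ((cs σ (1 + 1) / 2 : ℕ) : ℝ) *
      (((cfv σ (L + 1)).1 : ℝ) / 4)
    rw [← h1]
    push_cast
    have h2 := hBpos L
    have h3 : (0 : ℝ) ≤ (σ 0 : ℝ) * ((cfv σ (L + 1)).1 : ℝ) :=
      mul_nonneg (Nat.cast_nonneg _) h2.le
    linarith
  · change ((cfv σ (L + 1)).1 : ℝ) / (4 * (cfv σ (1 + 1)).1 * cs σ 1) ≤ _
    have h0 : (cs σ 1 : ℝ) = 2 := by
      have : cs σ 1 = 2 := by simp [cs, cfv]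
      rw [this]
      norm_num
    have h1 : (1 : ℝ) ≤ ((cfv σ (1 + 1)).1 : ℝ) := by exact_mod_cast fst_pos hσ 1
    rw [h0]
    apply div_le_div_of_nonneg_left (hBpos L).le (by norm_num)
    linarith
  · intro i hi hiL
    have hσ' : (1 : ℝ) ≤ σ i := by exact_mod_cast hσ i
    have h3 := hBpos i
    have h4 := hSpos i
    have h5 := hBpos (i + 1)
    have h6 := hSpos (i + 1)
    have h7 := hBpos L
    have h8 : 8 * (σ i : ℝ) * cs σ i * (cfv σ (i + 1)).1 ≤ (cfv σ (i + 2)).1 := by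
      exact_mod_cast fst_step (σ := σ) i
    constructor
    · have h9 : (cfv σ (i + 2)).1 ≤ cs σ (i + 2) / 2 := by
        have := fst_le_snd (σ := σ) (i + 2)
        rw [cs]
        omega
      have h10 : ((cfv σ (i + 2)).1 : ℝ) ≤ ((cs σ (i + 2) / 2 : ℕ) : ℝ) := by exact_mod_cast h9
      change (σ i : ℝ) * ((cfv σ (L + 1)).1 : ℝ) ≤ ((cs σ (i + 1 + 1) / 2 : ℕ) : ℝ) *
        (((cfv σ (L + 1)).1 : ℝ) / (4 * (cfv σ (i + 1)).1 * cs σ i) / 2)
      calc (σ i : ℝ) * ((cfv σ (L + 1)).1 : ℝ) = (8 * (σ i : ℝ) * cs σ i * (cfv σ (i + 1)).1) *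
            (((cfv σ (L + 1)).1 : ℝ) / (4 * (cfv σ (i + 1)).1 * cs σ i) / 2) := by
              field_simp
              ring
        _ ≤ _ := by
              refine mul_le_mul_of_nonneg_right (h8.trans h10) (by positivity)
    · change ((cfv σ (L + 1)).1 : ℝ) / (4 * (cfv σ (i + 1 + 1)).1 * cs σ (i + 1)) ≤
        ((cfv σ (L + 1)).1 : ℝ) / (4 * (cfv σ (i + 1)).1 * cs σ i) / 4
      rw [div_div]
      apply div_le_div_of_nonneg_left h7.le (by positivity)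
      have h11 : (1 : ℝ) ≤ cs σ (i + 1) := by exact_mod_cast cs_pos (σ := σ) (i + 1)
      have h12 : 4 * ((cfv σ (i + 1)).1 : ℝ) * cs σ i * 4 ≤ 4 * (cfv σ (i + 2)).1 := by
        have h13 : (cs σ i : ℝ) * (cfv σ (i + 1)).1 ≤ (σ i : ℝ) * (cs σ i * (cfv σ (i + 1)).1) :=
          le_mul_of_one_le_left (by positivity) hσ'
        have h14 : (0 : ℝ) ≤ (σ i : ℝ) * (cs σ i * (cfv σ (i + 1)).1) := by positivity
        linarith
      calc 4 * ((cfv σ (i + 1)).1 : ℝ) * cs σ i * 4 ≤ 4 * (cfv σ (i + 2)).1 := h12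
        _ ≤ 4 * (cfv σ (i + 2)).1 * cs σ (i + 1) := le_mul_of_one_le_right (by positivity) h11
  · change ((cfv σ (L + 1)).1 : ℝ) / (4 * (cfv σ (L + 1)).1 * cs σ L) = _
    have h3 := hBpos L
    have h4 := hSpos L
    field_simp
  · exact Nat.mul_le_mul_left _ (Nat.le_add_left _ _)

/-- all parameters are equal except the last one -/
def sig (L a b : ℕ) (j : ℕ) : ℕ := if j + 1 = L then b else a

theorem one_le_sig {L a b : ℕ} (ha : 1 ≤ a) (hb : 1 ≤ b) (j : ℕ) : 1 ≤ sig L a b j := by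
  unfold sig
  split_ifs <;> assumption

theorem fib_rec (j : ℕ) : Nat.fib (j + 3) - 1 = (Nat.fib (j + 1) - 1) + (Nat.fib (j + 2) - 1) + 1 := by
  have h1 : Nat.fib (j + 3) = Nat.fib (j + 1) + Nat.fib (j + 2) := by
    rw [show j + 3 = (j + 1) + 2 by ring, Nat.fib_add_two]
  have h2 : 0 < Nat.fib (j + 1) := Nat.fib_pos.mpr (by omega)
  have h3 : 0 < Nat.fib (j + 2) := Nat.fib_pos.mpr (by omega)
  omega

theorem cs_sig_succ {L a b : ℕ} (ha : 1 ≤ a) (hb : 1 ≤ b) (j : ℕ) :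
    cs (sig L a b) (j + 2) ≤ 9 * sig L a b j * (cs (sig L a b) j * cs (sig L a b) (j + 1)) := by
  rw [cs_succ]
  have hσ := one_le_sig (L := L) ha hb j
  have h1 : cs (sig L a b) j ≤ sig L a b j * cs (sig L a b) j * cs (sig L a b) (j + 1) := by
    calc cs (sig L a b) j = 1 * cs (sig L a b) j * 1 := by ring
      _ ≤ sig L a b j * cs (sig L a b) j * cs (sig L a b) (j + 1) :=
        Nat.mul_le_mul (Nat.mul_le_mul_right _ hσ) (cs_pos (j + 1))
  calc 8 * sig L a b j * cs (sig L a b) j * cs (sig L a b) (j + 1) + cs (sig L a b) j ≤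
      8 * sig L a b j * cs (sig L a b) j * cs (sig L a b) (j + 1) +
        sig L a b j * cs (sig L a b) j * cs (sig L a b) (j + 1) := Nat.add_le_add_left h1 _
    _ = _ := by ring

theorem cs_sig_le {L a b : ℕ} (ha : 1 ≤ a) (hb : 1 ≤ b) (j : ℕ) (hj : j ≤ L) :
    cs (sig L a b) j ≤ 2 * (18 * a) ^ (Nat.fib (j + 1) - 1) := by
  have h : (j ≤ L → cs (sig L a b) j ≤ 2 * (18 * a) ^ (Nat.fib (j + 1) - 1)) ∧
      (j + 1 ≤ L → cs (sig L a b) (j + 1) ≤ 2 * (18 * a) ^ (Nat.fib (j + 2) - 1)) := by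
    clear hj
    induction j with
    | zero => exact ⟨fun _ => by simp [cs, cfv], fun _ => by simp [cs, cfv]⟩
    | succ j ih =>
      refine ⟨ih.2, fun hjL => ?_⟩
      rw [show j + 1 + 1 = j + 2 from rfl, show j + 1 + 2 = j + 3 from rfl, fib_rec]
      have h1 := cs_sig_succ (L := L) ha hb j
      have h2 : sig L a b j = a := if_neg (by omega)
      rw [h2] at h1
      calc cs (sig L a b) (j + 2) ≤ 9 * a * (cs (sig L a b) j * cs (sig L a b) (j + 1)) := h1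
        _ ≤ 9 * a * ((2 * (18 * a) ^ (Nat.fib (j + 1) - 1)) *
            (2 * (18 * a) ^ (Nat.fib (j + 2) - 1))) :=
            Nat.mul_le_mul_left _ (Nat.mul_le_mul (ih.1 (by omega)) (ih.2 (by omega)))
        _ = 2 * (18 * a) ^ ((Nat.fib (j + 1) - 1) + (Nat.fib (j + 2) - 1) + 1) := by
            rw [pow_succ, pow_add]; ring
  exact h.1 hj

/-- the size of the numbers: the last parameter occurs to the first power -/
theorem cs_sig_last {L a b : ℕ} (ha : 1 ≤ a) (hb : 1 ≤ b) :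
    cs (sig (L + 1) a b) (L + 1) * cs (sig (L + 1) a b) (L + 1 + 1) ≤
      4 * (18 * b) * (18 * a) ^ (Nat.fib (L + 4) - 3) := by
  have h1 := cs_sig_le (L := L + 1) ha hb L (by omega)
  have h2 := cs_sig_le (L := L + 1) ha hb (L + 1) le_rfl
  have h3 := cs_sig_succ (L := L + 1) ha hb L
  have h4 : sig (L + 1) a b L = b := if_pos rfl
  rw [h4] at h3
  have hfib : Nat.fib (L + 4) - 3 = (Nat.fib (L + 1) - 1) + (Nat.fib (L + 2) - 1) +
      (Nat.fib (L + 2) - 1) := by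
    have e1 : Nat.fib (L + 4) = Nat.fib (L + 2) + Nat.fib (L + 3) := by
      rw [show L + 4 = (L + 2) + 2 by ring, Nat.fib_add_two]
    have e2 : Nat.fib (L + 3) = Nat.fib (L + 1) + Nat.fib (L + 2) := by
      rw [show L + 3 = (L + 1) + 2 by ring, Nat.fib_add_two]
    have h2 : 0 < Nat.fib (L + 1) := Nat.fib_pos.mpr (by omega)
    have h3 : 0 < Nat.fib (L + 2) := Nat.fib_pos.mpr (by omega)
    omega
  rw [hfib, pow_add, pow_add]
  calc cs (sig (L + 1) a b) (L + 1) * cs (sig (L + 1) a b) (L + 1 + 1) ≤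
      cs (sig (L + 1) a b) (L + 1) *
        (9 * b * (cs (sig (L + 1) a b) L * cs (sig (L + 1) a b) (L + 1))) :=
        Nat.mul_le_mul_left _ h3
    _ ≤ (2 * (18 * a) ^ (Nat.fib (L + 1 + 1) - 1)) *
        (9 * b * ((2 * (18 * a) ^ (Nat.fib (L + 1) - 1)) *
          (2 * (18 * a) ^ (Nat.fib (L + 1 + 1) - 1)))) :=
        Nat.mul_le_mul h2 (Nat.mul_le_mul_left _ (Nat.mul_le_mul h1 h2))
    _ = _ := by ring

end Pool.XMP
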