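import Pool.Agent.XMP.CfB
import Pool.Agent.XP.Num

/-!
# XMP: the chain of growth rates (row Y3)

The chain of growth rates with its own parameter for the last threshold.
-/

set_option autoImplicit false

namespace Pool.XMP

open Finset Real Pool.XD Pool.XP

/-- the chain of growth rates, general thresholds -/
theorem growth_chain (L : ℕ) (hL : 1 ≤ L) (σ : ℕ → ℕ) (hσ : ∀ j, 1 ≤ σ j) (κ : ℕ → ℝ)
    (hκ : ∀ i, 1 ≤ κ i) (hκσ : ∀ i, i + 1 ≤ L → log (κ i) ≤ σ i / 2) :
    ∃ (A B s : ℕ) (X Y : ℕ → ℝ), 1 ≤ s ∧ 1 ≤ B ∧ B ≤ A ∧ A ≤ 2 * B ∧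
      s * A ≤ cs σ L * cs σ (L + 1) ∧ X 0 = 1 ∧ Y 0 = 1 ∧
      (∀ i, 0 < X i) ∧ (∀ i, 0 < Y i) ∧
      (∀ i, i + 1 ≤ L → NumAll (exp 1) (exp ((B : ℝ) / A)) (κ i) (X i) (Y i) (X (i + 1))
        (Y (i + 1))) ∧
      X L = exp (1 / 2 - 1 / (4 * (s * A))) ∧ Y L = exp ((B : ℝ) / A / 2 - 1 / (4 * (s * A))) := by
  obtain ⟨A, B, s, c, τ, hs, hB, hBA, hA2, h1, h2, h3, h4, h5, h6⟩ := cf_numbers L hL hσ
  have hA : 1 ≤ A := hB.trans hBA
  have hAr : (0 : ℝ) < A := by exact_mod_cast hA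
  have hBr : (0 : ℝ) < B := by exact_mod_cast hB
  have hsr : (0 : ℝ) < s := by exact_mod_cast hs
  have hBAr : (B : ℝ) ≤ A := by exact_mod_cast hBA
  have hA2r : (A : ℝ) ≤ 2 * B := by exact_mod_cast hA2
  -- lower bound for c
  have hc0 : ∀ j, j < L → 1 / (4 * (s : ℝ)) ≤ c (L - j) := by
    intro j
    induction j with
    | zero => intro _; rw [Nat.sub_zero, h5]
    | succ j ih =>
      intro hj
      have e1 := ih (by omega)
      have e2 := (h4 (L - (j + 1)) (by omega) (by omega)).2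
      rw [show L - (j + 1) + 1 = L - j by omega] at e2
      have e3 : 0 < 1 / (4 * (s : ℝ)) := by positivity
      linarith
  have hc : ∀ i, 1 ≤ i → i ≤ L → 0 < c i := by
    intro i hi hiL
    have := hc0 (L - i) (by omega)
    rw [show L - (L - i) = i by omega] at this
    have e3 : 0 < 1 / (4 * (s : ℝ)) := by positivity
    linarith
  refine ⟨A, B, s, fun i => if i = 0 then 1 else exp (1 / 2 - c i / A),
    fun i => if i = 0 then 1 else exp ((B : ℝ) / A / 2 - c i / A), hs, hB, hBA, hA2, h6,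
    if_pos rfl, if_pos rfl, ?_, ?_, ?_, ?_, ?_⟩
  · intro i
    beta_reduce
    split_ifs
    · exact one_pos
    · exact exp_pos _
  · intro i
    beta_reduce
    split_ifs
    · exact one_pos
    · exact exp_pos _
  · intro i hiL
    have hi1 : ¬ i + 1 = 0 := by omega
    have hκi := hκσ i hiL
    have hσi : (1 : ℝ) ≤ σ i := by exact_mod_cast hσ i
    have hlog : 0 ≤ log (κ i) := log_nonneg (hκ i)
    rcases Nat.eq_zero_or_pos i with hi0 | hi0
    · subst hi0
      simp only [if_true, zero_add, one_ne_zero, if_false]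
      have e0 : NumAll (exp 1) (exp ((B : ℝ) / A)) (κ 0) (exp 0) (exp 0) (exp (1 / 2 - c 1 / A))
          (exp ((B : ℝ) / A / 2 - c 1 / A)) := by
        refine numAll_of hA (hκ 0) (h1 1 le_rfl hL) ?_
        intro b e hbe
        have hτ : (4 : ℝ) * σ 0 ≤ τ 1 := by
          have e1 : (σ 0 : ℝ) * B * 4 ≤ τ 1 * B := by linarith
          have e2 : ((4 : ℝ) * σ 0) * B ≤ τ 1 * B := by linarith
          exact le_of_mul_le_mul_right e2 hBr
        have hbe' : (τ 1 : ℝ) ≤ (b : ℝ) + e := by exact_mod_cast hbe.le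
        have e3 : (1 / 2 - c 1 / A) * (b : ℝ) + ((B : ℝ) / A / 2 - c 1 / A) * e =
            (A * b + B * e - 2 * c 1 * (b + e)) / (2 * A) := by
          field_simp
          ring
        rw [e3, le_div_iff₀ (by linarith)]
        have hb0 : (0 : ℝ) ≤ b := Nat.cast_nonneg _
        have he0 : (0 : ℝ) ≤ e := Nat.cast_nonneg _
        have e4 : (B : ℝ) * b ≤ A * b := mul_le_mul_of_nonneg_right hBAr hb0
        have e5 : 2 * c 1 * ((b : ℝ) + e) ≤ B / 4 * (b + e) :=
          mul_le_mul_of_nonneg_right (by linarith) (by linarith)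
        have e6 : (B : ℝ) * 3 / 4 * (4 * σ 0) ≤ B * 3 / 4 * (b + e) :=
          mul_le_mul_of_nonneg_left (hτ.trans hbe') (by positivity)
        have e7 : log (κ 0) * (2 * A) ≤ (σ 0 / 2) * (2 * (2 * B)) :=
          mul_le_mul hκi (by linarith) (by linarith) (by linarith)
        have e8 : 0 ≤ (σ 0 : ℝ) * B := by positivity
        linarith
      simpa using e0
    · have hi2 : ¬ i = 0 := by omega
      simp only [hi1, hi2, if_false]
      refine numAll_of hA (hκ i) (h1 (i + 1) (by omega) hiL) ?_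
      intro b e hbe
      obtain ⟨h41, h42⟩ := h4 i hi0 hiL
      have hci := hc i hi0 (by omega)
      have hbe' : (τ (i + 1) : ℝ) ≤ (b : ℝ) + e := by exact_mod_cast hbe.le
      have e1 : 3 / 4 * c i ≤ c i - c (i + 1) := by linarith
      have e2 : (τ (i + 1) : ℝ) * (3 / 4 * c i) ≤ (b + e) * (c i - c (i + 1)) :=
        mul_le_mul hbe' e1 (by linarith) ((Nat.cast_nonneg _).trans hbe')
      have e3 : 3 / 2 * ((σ i : ℝ) * B) ≤ (b + e) * (c i - c (i + 1)) := by linarith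
      have e4 : log (κ i) * A ≤ (σ i / 2) * (2 * B) :=
        mul_le_mul hκi hA2r (by linarith) (by linarith)
      have e8 : 0 ≤ (σ i : ℝ) * B := by positivity
      have e5 : log (κ i) * A ≤ (b + e) * (c i - c (i + 1)) := by linarith
      have e6 : log (κ i) ≤ ((b : ℝ) + e) * (c i - c (i + 1)) / A := by
        rw [le_div_iff₀ hAr]
        exact e5
      have e7 : (1 / 2 - c (i + 1) / A) * (b : ℝ) + ((B : ℝ) / A / 2 - c (i + 1) / A) * e =
          ((1 / 2 - c i / A) * b + ((B : ℝ) / A / 2 - c i / A) * e) +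
            ((b : ℝ) + e) * (c i - c (i + 1)) / A := by
        field_simp
        ring
      rw [e7]
      linarith
  · have hL0 : ¬ L = 0 := by omega
    simp only [hL0, if_false]
    rw [h5]
    congr 2
    field_simp
  · have hL0 : ¬ L = 0 := by omega
    simp only [hL0, if_false]
    rw [h5]
    congr 2
    field_simp

/-- the chain in the form which is used: square roots, two thresholds -/
theorem chain_two (L a b : ℕ) (ha : 1 ≤ a) (hb : 1 ≤ b) (κ κ' : ℝ) (hκ : 1 ≤ κ) (hκ' : 1 ≤ κ')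
    (hκa : 4 * log κ ≤ a) (hκb : 4 * log κ' ≤ b) :
    ∃ (N : ℕ) (y : ℝ) (X Y : ℕ → ℝ), 1 ≤ N ∧ N ≤ 4 * (18 * b) * (18 * a) ^ (Nat.fib (L + 4) - 3) ∧
      1 / 4 ≤ y ∧ y ≤ 1 / 2 ∧ X 0 = 1 ∧ Y 0 = 1 ∧ (∀ i, 0 < X i) ∧ (∀ i, 0 < Y i) ∧
      (∀ i, i + 1 ≤ L → NumAll (exp (1 / 2)) (exp y) κ (X i) (Y i) (X (i + 1)) (Y (i + 1))) ∧
      NumAll (exp (1 / 2)) (exp y) κ' (X L) (Y L) (X (L + 1)) (Y (L + 1)) ∧
      X (L + 1) = exp (1 / 4 - 1 / (8 * N)) ∧ Y (L + 1) = exp (y / 2 - 1 / (8 * N)) := by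
  have hl : log (κ ^ 2) = 2 * log κ := by
    rw [log_pow]
    push_cast
    ring
  have hl' : log (κ' ^ 2) = 2 * log κ' := by
    rw [log_pow]
    push_cast
    ring
  obtain ⟨A, B, s, X, Y, hs, hB, hBA, hA2, hsA, hX0, hY0, hXp, hYp, hch, hXL, hYL⟩ :=
    growth_chain (L + 1) (by omega) (sig (L + 1) a b) (one_le_sig ha hb)
      (fun i => if i + 1 = L + 1 then κ' ^ 2 else κ ^ 2)
      (fun i => by
        split_ifs
        · exact one_le_pow₀ hκ'
        · exact one_le_pow₀ hκ)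
      (fun i _ => by
        unfold sig
        split_ifs
        · rw [hl']
          linarith
        · rw [hl]
          linarith)
  have hA : 1 ≤ A := hB.trans hBA
  have hAr : (0 : ℝ) < A := by exact_mod_cast hA
  have hBr : (0 : ℝ) < B := by exact_mod_cast hB
  have hsr : (0 : ℝ) < s := by exact_mod_cast hs
  have hBAr : (B : ℝ) ≤ A := by exact_mod_cast hBA
  have hA2r : (A : ℝ) ≤ 2 * B := by exact_mod_cast hA2
  have hy0 : 1 / 4 ≤ (B : ℝ) / A / 2 := by
    have : 1 / 2 ≤ (B : ℝ) / A := by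
      rw [le_div_iff₀ hAr]
      linarith
    linarith
  have hy1 : (B : ℝ) / A / 2 ≤ 1 / 2 := by
    have : (B : ℝ) / A ≤ 1 := by
      rw [div_le_one hAr]
      exact hBAr
    linarith
  refine ⟨s * A, (B : ℝ) / A / 2, fun i => √(X i), fun i => √(Y i), Nat.mul_pos hs hA,
    hsA.trans (cs_sig_last ha hb), hy0, hy1, ?_, ?_, fun i => Real.sqrt_pos.2 (hXp i),
    fun i => Real.sqrt_pos.2 (hYp i), ?_, ?_, ?_, ?_⟩
  · beta_reduce
    rw [hX0, Real.sqrt_one]
  · beta_reduce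
    rw [hY0, Real.sqrt_one]
  · intro i hi
    have h0 := hch i (by omega)
    rw [if_neg (by omega)] at h0
    have h1 := numAll_sqrt (exp_pos _) (exp_pos _) (by linarith) (hXp i) (hYp i) (hXp (i + 1))
      (hYp (i + 1)) h0
    rw [← exp_half, ← exp_half] at h1
    exact h1
  · have h0 := hch L le_rfl
    rw [if_pos rfl] at h0
    have h1 := numAll_sqrt (exp_pos _) (exp_pos _) (by linarith) (hXp L) (hYp L) (hXp (L + 1))
      (hYp (L + 1)) h0
    rw [← exp_half, ← exp_half] at h1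
    exact h1
  · beta_reduce
    rw [hXL, ← exp_half]
    congr 1
    push_cast
    field_simp
    ring
  · beta_reduce
    rw [hYL, ← exp_half]
    congr 1
    push_cast
    field_simp
    ring

/-- taking logarithms in the rank inequality -/
theorem pairs_le' {N : ℕ} (hN : 1 ≤ N) {R Q K1 K2 : ℕ} {y Bc : ℝ} (hBc : 1 ≤ Bc)
    (hbal : 2 * y * Q - 2 ≤ R)
    (h : exp (1 / 2) ^ (2 * R) ≤ ((2 * (R + Q) : ℕ) + 1 : ℝ) ^ K1 *
      (exp (1 / 4 - 1 / (8 * N)) ^ (2 * R) * exp (y / 2 - 1 / (8 * N)) ^ (2 * Q)) *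
        (Bc * (2 * (R + Q) + 1 : ℝ) ^ K2)) :
    ((R : ℝ) + Q) / (4 * N) ≤ 1 + (K1 + K2) * log (2 * (R + Q) + 1 : ℝ) + log Bc := by
  have h1 := pairs_le (A := N) (s := 1) (T := 1) le_rfl hN hBc le_rfl hbal
    (K1 := K1) (K2 := K2) (by
      rw [Nat.cast_one, one_mul, one_mul]
      exact h)
  rw [Nat.cast_one, one_mul, log_one, add_zero] at h1
  exact h1

end Pool.XMP
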