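import Pool.Agent.XP.Perm
import Pool.Agent.XM.Generic

/-!
# XMP, row Y1: the paired permanent plus a variable is a projection of the permanent

The matrix of XP gets a chain of gadgets with parking columns: either all rows of letters are
parked and the chain covers the first ports, or the chain covers all parking columns. The
permanent is `t + f` and the cofactor of the entry `t` is constant.
-/

set_option autoImplicit false
set_option linter.unusedSectionVars false

namespace Pool.XMP

open Finset Pool.XP Pool.Agent.Helper97.Form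

section chain

variable {B : Type} [CommRing B]

theorem chain_first (b p u : ℕ → B) (hb : ∀ i, b i * b i = 0) (d : ℕ) :
    b 0 * ∏ i ∈ range d, (b i * u i - p i * b (i + 1)) =
      (-1) ^ d * (∏ i ∈ range d, p i) * ∏ j ∈ range (d + 1), b j := by
  induction d with
  | zero => simp
  | succ d ih =>
    rw [prod_range_succ, ← mul_assoc, ih, prod_range_succ (fun i => p i) d,
      prod_range_succ (fun j => b j) (d + 1), prod_range_succ (fun j => b j) d, pow_succ]
    linear_combination ((-1) ^ d * (∏ i ∈ range d, p i) * (∏ j ∈ range d, b j) * u d) * hb d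

theorem chain_second (b p u : ℕ → B) (hb : ∀ i, b i * b i = 0) (d : ℕ) :
    b d * ∏ i ∈ range d, (b i * u i - p i * b (i + 1)) =
      (∏ i ∈ range d, u i) * ∏ j ∈ range (d + 1), b j := by
  induction d with
  | zero => simp
  | succ d ih =>
    rw [prod_range_succ (fun i => b i * u i - p i * b (i + 1)) d, prod_range_succ (fun i => u i) d,
      prod_range_succ (fun j => b j) (d + 1)]
    linear_combination (u d * b (d + 1)) * ih -
      ((∏ i ∈ range d, (b i * u i - p i * b (i + 1))) * p d) * hb (d + 1)

theorem mul_prod_add {ι : Type} (s : Finset ι) (T : B) (L p : ι → B) (h : ∀ i ∈ s, T * L i = 0) :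
    T * ∏ i ∈ s, (L i + p i) = T * ∏ i ∈ s, p i := by
  classical
  induction s using Finset.induction_on with
  | empty => simp
  | insert a s ha ih =>
    rw [prod_insert ha, prod_insert ha]
    have h1 := ih fun i hi => h i (mem_insert_of_mem hi)
    have h2 := h a (mem_insert_self _ _)
    linear_combination (∏ i ∈ s, (L i + p i)) * h2 + p a * h1

theorem prod_mul_add {ι : Type} (s : Finset ι) (L p : ι → B) (hp : ∀ i, p i * p i = 0) :
    (∏ i ∈ s, p i) * ∏ i ∈ s, (L i + p i) = (∏ i ∈ s, p i) * ∏ i ∈ s, L i := by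
  rw [← prod_mul_distrib, ← prod_mul_distrib]
  refine prod_congr rfl fun i _ => ?_
  linear_combination hp i

end chain

section word

variable {R Q : ℕ} {B : Type} [CommRing B]

/-- the factor of a pair of columns -/
def fc (u w : Col R Q → B) (g : Fin (R + Q)) : B :=
  w (g, false) * w (g, true) - u (g, false) * u (g, true)

theorem u_w_fc {u w : Col R Q → B} (hu : ∀ c, u c * u c = 0) (hw : ∀ c, w c * w c = 0)
    (g : Fin (R + Q)) (b b' : Bool) : u (g, b) * w (g, b') * fc u w g = 0 := by
  unfold fc
  have h1 : u (g, b) * (u (g, false) * u (g, true)) = 0 := by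
    cases b
    · linear_combination u (g, true) * hu (g, false)
    · linear_combination u (g, false) * hu (g, true)
  have h2 : w (g, b') * (w (g, false) * w (g, true)) = 0 := by
    cases b'
    · linear_combination w (g, true) * hw (g, false)
    · linear_combination w (g, false) * hw (g, true)
  linear_combination (-w (g, b')) * h1 + u (g, b) * h2

theorem prt_ne_fc {u w : Col R Q → B} (hu : ∀ c, u c * u c = 0) (hw : ∀ c, w c * w c = 0)
    (g : Fin (R + Q)) (b b' : Bool) {t t' : Bool} (ht : t ≠ t') :
    prt u w t (g, b) * prt u w t' (g, b') * fc u w g = 0 := by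
  cases t <;> cases t'
  · exact absurd rfl ht
  · show w (g, b) * u (g, b') * fc u w g = 0
    rw [mul_comm (w (g, b))]
    exact u_w_fc hu hw g b' b
  · exact u_w_fc hu hw g b b'
  · exact absurd rfl ht

theorem word_zero' {u w : Col R Q → B} (hu : ∀ c, u c * u c = 0) (hw : ∀ c, w c * w c = 0)
    (s : Row R Q → Col R Q) (hs : s ∉ Om R Q) :
    (∏ i, prt u w (tyR i) (s i)) * ∏ g, fc u w g = 0 := by
  classical
  by_cases h1 : ∃ i j, i ≠ j ∧ (s i).1 = (s j).1 ∧ tyR i ≠ tyR j
  · obtain ⟨i, j, hij, h2, h3⟩ := h1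
    have hj : j ∈ univ.erase i := mem_erase.2 ⟨hij.symm, mem_univ _⟩
    rw [← mul_prod_erase univ _ (mem_univ i), ← mul_prod_erase _ _ hj,
      ← mul_prod_erase univ (fc u w) (mem_univ (s i).1)]
    have e1 : s i = ((s i).1, (s i).2) := rfl
    have e2 : s j = ((s i).1, (s j).2) := by rw [h2]
    have h4 := prt_ne_fc hu hw (s i).1 (s i).2 (s j).2 h3
    rw [← e1, ← e2] at h4
    linear_combination ((∏ x ∈ (univ.erase i).erase j, prt u w (tyR x) (s x)) *
      ∏ x ∈ univ.erase (s i).1, fc u w x) * h4
  · push Not at h1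
    have h2 : ¬ Function.Injective s := by
      intro hinj
      apply hs
      have hcard : Fintype.card (Row R Q) = Fintype.card (Col R Q) := card_row_col
      refine mem_filter.2 ⟨mem_univ _, (Fintype.bijective_iff_injective_and_card s).2
        ⟨hinj, hcard⟩, fun i j hij => ?_⟩
      by_cases h3 : i = j
      · rw [h3]
      · exact h1 i j h3 hij
    unfold Function.Injective at h2
    push Not at h2
    obtain ⟨i, j, h3, h4⟩ := h2
    have hj : j ∈ univ.erase i := mem_erase.2 ⟨fun h => h4 h.symm, mem_univ _⟩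
    have h5 := h1 i j h4 (by rw [h3])
    rw [← mul_prod_erase univ _ (mem_univ i), ← mul_prod_erase _ _ hj, ← h3, ← h5]
    linear_combination ((∏ x ∈ (univ.erase i).erase j, prt u w (tyR x) (s x)) *
      ∏ x, fc u w x) * prt_sq hu hw (tyR i) (s i)

theorem word_one' {u w : Col R Q → B} (hu : ∀ c, u c * u c = 0) (hw : ∀ c, w c * w c = 0)
    (s : Row R Q → Col R Q) (hs : s ∈ Om R Q) :
    (∏ i, prt u w (tyR i) (s i)) * ∏ g, fc u w g =
      (-1) ^ Q * ((∏ c, u c) * ∏ c, w c) := by
  classical
  obtain ⟨-, hb, ht⟩ := mem_filter.1 hs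
  let e : Row R Q ≃ Col R Q := Equiv.ofBijective s hb
  have he : ∀ i, e i = s i := fun i => rfl
  -- the type of a pair
  let τ : Fin (R + Q) → Bool := fun g => tyR (e.symm (g, false))
  have hτ : ∀ g b, tyR (e.symm (g, b)) = τ g := by
    intro g b
    apply ht
    rw [← he, ← he, Equiv.apply_symm_apply, Equiv.apply_symm_apply]
  have h1 : ∏ i, prt u w (tyR i) (s i) = ∏ g, prt u w (τ g) (g, false) * prt u w (τ g) (g, true) := by
    have h2 : ∏ i, prt u w (tyR i) (s i) = ∏ c : Col R Q, prt u w (τ c.1) c := by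
      refine Fintype.prod_equiv e _ _ fun i => ?_
      rw [he, ← hτ (s i).1 (s i).2]
      show prt u w (tyR i) (s i) = prt u w (tyR (e.symm (s i))) (s i)
      rw [← he, Equiv.symm_apply_apply]
    rw [h2, Fintype.prod_prod_type]
    refine prod_congr rfl fun g _ => ?_
    rw [Fintype.prod_bool, mul_comm]
  have h3 : ∀ g, prt u w (τ g) (g, false) * prt u w (τ g) (g, true) * fc u w g =
      (if τ g = true then (1 : B) else -1) *
        ((u (g, false) * u (g, true)) * (w (g, false) * w (g, true))) := by
    intro g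
    unfold prt fc
    cases τ g
    · simp only [Bool.false_eq_true, if_false]
      linear_combination (w (g, true) * w (g, true)) * hw (g, false)
    · simp only [if_true]
      linear_combination (-(u (g, true) * u (g, true))) * hu (g, false)
  have h4 : (univ.filter fun g => τ g = true).card = R := by
    have e1 : (univ.filter fun i : Row R Q => tyR i = true).card =
        (univ.filter fun c : Col R Q => τ c.1 = true).card := by
      refine card_equiv e fun i => ?_
      simp only [mem_filter, mem_univ, true_and]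
      rw [← hτ (e i).1 (e i).2]
      show _ ↔ tyR (e.symm (e i)) = true
      rw [Equiv.symm_apply_apply]
    have e2 : (univ.filter fun i : Row R Q => tyR i = true).card = 2 * R := by
      rw [card_filter, Fintype.sum_sum_type]
      simp [tyR]
    have e3 : (univ.filter fun c : Col R Q => τ c.1 = true).card =
        2 * (univ.filter fun g => τ g = true).card := by
      have : (univ.filter fun c : Col R Q => τ c.1 = true) =
          (univ.filter fun g => τ g = true) ×ˢ (univ : Finset Bool) := by
        ext c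
        simp
      rw [this, card_product, card_univ, Fintype.card_bool, mul_comm]
    omega
  have h5 : (univ.filter fun g => ¬ τ g = true).card = Q := by
    have := card_filter_add_card_filter_not (s := (univ : Finset (Fin (R + Q))))
      (fun g => τ g = true)
    rw [card_univ, Fintype.card_fin] at this
    omega
  rw [h1, ← prod_mul_distrib, prod_congr rfl fun g _ => h3 g, prod_mul_distrib, prod_mul_distrib,
    prod_ite, prod_const, prod_const, h4, h5, one_pow, one_mul, Fintype.prod_prod_type,
    Fintype.prod_prod_type]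
  congr 2
  · exact prod_congr rfl fun g _ => by rw [Fintype.prod_bool, mul_comm]
  · exact prod_congr rfl fun g _ => by rw [Fintype.prod_bool, mul_comm]

/-- the rows of letters and the factors of the pairs -/
theorem letters_fc {u w : Col R Q → B} (hu : ∀ c, u c * u c = 0) (hw : ∀ c, w c * w c = 0)
    (y : Row R Q × Col R Q → B) :
    (∏ i, ∑ c, y (i, c) * prt u w (tyR i) c) * ∏ g, fc u w g =
      (-1) ^ Q * (∑ s ∈ Om R Q, ∏ i, y (i, s i)) * ((∏ c, u c) * ∏ c, w c) := by
  classical
  rw [prod_univ_sum]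
  simp only [prod_mul_distrib]
  rw [sum_mul, Fintype.piFinset_univ, ← sum_subset (subset_univ (Om R Q))]
  · rw [sum_congr rfl fun s hs => by rw [mul_assoc, word_one' hu hw s hs], ← sum_mul]
    ring
  · intro s _ hs
    rw [mul_assoc, word_zero' hu hw s hs, mul_zero]

/-- **the mode bit**: the product of all the forms -/
theorem mode_prod {u w : Col R Q → B} {p : Row R Q → B} {b : ℕ → B} (hu : ∀ c, u c * u c = 0)
    (hw : ∀ c, w c * w c = 0) (hp : ∀ i, p i * p i = 0) (hb : ∀ i, b i * b i = 0)
    (y : Row R Q × Col R Q → B) {d : ℕ} (e : Fin d ≃ Row R Q) (e' : Fin d ≃ Col R Q)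
    (s t : B) :
    (∏ i, ((∑ c, y (i, c) * prt u w (tyR i) c) + p i)) * (∏ g, fc u w g) *
      (∏ i : Fin d, (b i * u (e' i) - p (e i) * b (i + 1))) * (s * b 0 + t * b d) =
      (s * ((-1) ^ d * (-1) ^ Q) * (∑ s ∈ Om R Q, ∏ i, y (i, s i)) + t) *
        ((∏ c, u c) * (∏ c, w c) * (∏ i, p i) * ∏ j ∈ range (d + 1), b j) := by
  classical
  set L : Row R Q → B := fun i => ∑ c, y (i, c) * prt u w (tyR i) c with hL
  let pN : ℕ → B := fun i => if h : i < d then p (e ⟨i, h⟩) else 0
  let uN : ℕ → B := fun i => if h : i < d then u (e' ⟨i, h⟩) else 0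
  have h1 : ∏ i : Fin d, (b i * u (e' i) - p (e i) * b (i + 1)) =
      ∏ i ∈ range d, (b i * uN i - pN i * b (i + 1)) := by
    rw [← Fin.prod_univ_eq_prod_range (fun i => b i * uN i - pN i * b (i + 1)) d]
    refine prod_congr rfl fun i _ => ?_
    simp only [pN, uN, i.2, dif_pos]
  have h2 : ∏ i ∈ range d, pN i = ∏ i, p i := by
    rw [← Fin.prod_univ_eq_prod_range (fun i => pN i) d, ← Equiv.prod_comp e p]
    refine prod_congr rfl fun i _ => ?_
    simp only [pN, i.2, dif_pos]
  have h3 : ∏ i ∈ range d, uN i = ∏ c, u c := by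
    rw [← Fin.prod_univ_eq_prod_range (fun i => uN i) d, ← Equiv.prod_comp e' u]
    refine prod_congr rfl fun i _ => ?_
    simp only [uN, i.2, dif_pos]
  have h4 := chain_first b pN uN hb d
  have h5 := chain_second b pN uN hb d
  rw [h2] at h4
  rw [h3] at h5
  rw [h1]
  -- first mode
  have h6 := prod_mul_add univ L p hp
  have h7 := letters_fc hu hw y
  -- second mode
  have h8 : (∏ c, u c) * ∏ g, fc u w g = (∏ c, u c) * ∏ c, w c := by
    rw [Fintype.prod_prod_type, Fintype.prod_prod_type, ← prod_mul_distrib, ← prod_mul_distrib]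
    refine prod_congr rfl fun g _ => ?_
    rw [Fintype.prod_bool, Fintype.prod_bool]
    unfold fc
    linear_combination (-(u (g, true) * u (g, true))) * hu (g, false)
  have h9 : ∀ i, ((∏ c, u c) * ∏ c, w c) * L i = 0 := by
    intro i
    rw [hL]
    show ((∏ c, u c) * ∏ c, w c) * ∑ c, y (i, c) * prt u w (tyR i) c = 0
    rw [mul_sum]
    refine sum_eq_zero fun c _ => ?_
    unfold prt
    split_ifs
    · rw [← mul_prod_erase univ u (mem_univ c)]
      linear_combination ((∏ x ∈ univ.erase c, u x) * (∏ c, w c) * y (i, c)) * hu c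
    · rw [← mul_prod_erase univ w (mem_univ c)]
      linear_combination ((∏ x ∈ univ.erase c, w x) * (∏ c, u c) * y (i, c)) * hw c
  have h10 := mul_prod_add univ ((∏ c, u c) * ∏ c, w c) L p fun i _ => h9 i
  set PL := ∏ i, (L i + p i) with hPL
  set FC := ∏ g, fc u w g with hFC
  set CH := ∏ i ∈ range d, (b i * uN i - pN i * b (i + 1)) with hCH
  set PB := ∏ j ∈ range (d + 1), b j with hPB
  set PU := ∏ c, u c with hPU
  set PW := ∏ c, w c with hPW
  set PP := ∏ i, p i with hPP
  linear_combination (s * PL * FC) * h4 + (t * PL * FC) * h5 +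
    (s * (-1) ^ d * FC * PB) * h6 + (s * (-1) ^ d * PP * PB) * h7 +
    (t * PL * PB) * h8 + (t * PB) * h10

end word

section mat

variable (R Q : ℕ)

/-- the number of the rows of letters -/
abbrev dd (R Q : ℕ) : ℕ := 2 * (R + Q)

/-- the rows of the matrix -/
abbrev RI (R Q : ℕ) : Type := Row R Q ⊕ (Col R Q ⊕ ((Fin (dd R Q) × Bool) ⊕ Unit))

/-- the columns of the matrix -/
abbrev CI (R Q : ℕ) : Type := (Col R Q ⊕ Col R Q) ⊕ (Row R Q ⊕ Fin (dd R Q + 1))

theorem card_RI : Fintype.card (RI R Q) = 8 * (R + Q) + 1 := by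
  simp only [RI, Row, Col, dd, Fintype.card_sum, Fintype.card_prod, Fintype.card_fin,
    Fintype.card_bool, Fintype.card_unit]
  ring

theorem card_CI : Fintype.card (CI R Q) = 8 * (R + Q) + 1 := by
  simp only [CI, Row, Col, dd, Fintype.card_sum, Fintype.card_prod, Fintype.card_fin,
    Fintype.card_bool]
  ring

variable {R Q} {F : Type} [Field F]

/-- the constant entries -/
def c0 (e : Fin (dd R Q) ≃ Row R Q) (e' : Fin (dd R Q) ≃ Col R Q) (h s : F) :
    RI R Q → CI R Q → F
  | Sum.inl _, Sum.inl _ => 0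
  | Sum.inl i, Sum.inr (Sum.inl j) => if i = j then 1 else 0
  | Sum.inl _, Sum.inr (Sum.inr _) => 0
  | Sum.inr (Sum.inl (g, a)), Sum.inl (Sum.inl c) => if g = c.1 then (if a then 1 else -h) else 0
  | Sum.inr (Sum.inl (g, a)), Sum.inl (Sum.inr c) => if g = c.1 then (if a then 1 else h) else 0
  | Sum.inr (Sum.inl _), Sum.inr _ => 0
  | Sum.inr (Sum.inr (Sum.inl (i, a))), Sum.inl (Sum.inl c) =>
      if e' i = c then (if a then 1 else h) else 0
  | Sum.inr (Sum.inr (Sum.inl _)), Sum.inl (Sum.inr _) => 0
  | Sum.inr (Sum.inr (Sum.inl (i, a))), Sum.inr (Sum.inl j) =>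
      if e i = j then (if a then 1 else -h) else 0
  | Sum.inr (Sum.inr (Sum.inl (i, a))), Sum.inr (Sum.inr k) =>
      (if i.castSucc = k then (if a then 1 else h) else 0) +
        (if i.succ = k then (if a then 1 else -h) else 0)
  | Sum.inr (Sum.inr (Sum.inr _)), Sum.inr (Sum.inr k) => if (0 : Fin (dd R Q + 1)) = k then s else 0
  | Sum.inr (Sum.inr (Sum.inr _)), Sum.inr (Sum.inl _) => 0
  | Sum.inr (Sum.inr (Sum.inr _)), Sum.inl _ => 0

/-- the letters -/
def dl : RI R Q → CI R Q → Option (Row R Q × Col R Q)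
  | Sum.inl i, Sum.inl (Sum.inl c) => if tyR i then some (i, c) else none
  | Sum.inl i, Sum.inl (Sum.inr c) => if tyR i then none else some (i, c)
  | Sum.inl _, Sum.inr _ => none
  | Sum.inr _, _ => none

/-- the row of the variable -/
def zr : RI R Q := Sum.inr (Sum.inr (Sum.inr ()))

/-- the column of the variable -/
def zc : CI R Q := Sum.inr (Sum.inr (Fin.last _))

variable {A : Type} [CommRing A] [Algebra F A]

/-- the matrix -/
def mm (e : Fin (dd R Q) ≃ Row R Q) (e' : Fin (dd R Q) ≃ Col R Q) (h s : F)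
    (x : Row R Q × Col R Q → A) (t : A) (i : RI R Q) (j : CI R Q) : A :=
  algebraMap F A (c0 e e' h s i j) + (dl i j).elim 0 x + if i = zr ∧ j = zc then t else 0

theorem sum_CI {B : Type} [CommRing B] (T : CI R Q → B) (m : CI R Q → B) :
    ∑ j, m j * T j = (∑ c, m (Sum.inl (Sum.inl c)) * T (Sum.inl (Sum.inl c))) +
      (∑ c, m (Sum.inl (Sum.inr c)) * T (Sum.inl (Sum.inr c))) +
      ((∑ i, m (Sum.inr (Sum.inl i)) * T (Sum.inr (Sum.inl i))) +
      ∑ k, m (Sum.inr (Sum.inr k)) * T (Sum.inr (Sum.inr k))) := by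
  rw [Fintype.sum_sum_type, Fintype.sum_sum_type, Fintype.sum_sum_type]

theorem prod_RI {B : Type} [CommRing B] (G : RI R Q → B) :
    ∏ i, G i = (∏ i, G (Sum.inl i)) * ((∏ g, ∏ a, G (Sum.inr (Sum.inl (g, a)))) *
      ((∏ i, ∏ a, G (Sum.inr (Sum.inr (Sum.inl (i, a))))) * G (Sum.inr (Sum.inr (Sum.inr ()))))) := by
  have h1 : ∏ i, G i = (∏ i : Row R Q, G (Sum.inl i)) *
      ∏ i : Col R Q ⊕ ((Fin (dd R Q) × Bool) ⊕ Unit), G (Sum.inr i) := Fintype.prod_sum_type _
  have h2 : ∏ i : Col R Q ⊕ ((Fin (dd R Q) × Bool) ⊕ Unit), G (Sum.inr i) =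
      (∏ i : Col R Q, G (Sum.inr (Sum.inl i))) *
        ∏ i : (Fin (dd R Q) × Bool) ⊕ Unit, G (Sum.inr (Sum.inr i)) := Fintype.prod_sum_type _
  have h3 : ∏ i : (Fin (dd R Q) × Bool) ⊕ Unit, G (Sum.inr (Sum.inr i)) =
      (∏ i : Fin (dd R Q) × Bool, G (Sum.inr (Sum.inr (Sum.inl i)))) *
        ∏ i : Unit, G (Sum.inr (Sum.inr (Sum.inr i))) := Fintype.prod_sum_type _
  have h4 : ∏ i : Unit, G (Sum.inr (Sum.inr (Sum.inr i))) = G (Sum.inr (Sum.inr (Sum.inr ()))) :=
    Fintype.prod_unique _
  rw [h1, h2, h3, h4, Fintype.prod_prod_type, Fintype.prod_prod_type]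

theorem mm_forms (e : Fin (dd R Q) ≃ Row R Q) (e' : Fin (dd R Q) ≃ Col R Q) {h s : F}
    (hh : 2 * h = 1) (x : Row R Q × Col R Q → A) (t : A) {B : Type} [CommRing B] (f : A →+* B)
    (T : CI R Q → B) (hT : ∀ j, T j * T j = 0) :
    ∏ i, ∑ j, f (mm e e' h s x t i j) * T j =
      f (algebraMap F A (s * ((-1) ^ dd R Q * (-1) ^ Q)) * (∑ s ∈ Om R Q, ∏ i, x (i, s i)) + t) *
        ∏ j, T j := by
  classical
  let u : Col R Q → B := fun c => T (Sum.inl (Sum.inl c))
  let w : Col R Q → B := fun c => T (Sum.inl (Sum.inr c))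
  let p : Row R Q → B := fun i => T (Sum.inr (Sum.inl i))
  let b : ℕ → B := fun k => if hk : k < dd R Q + 1 then T (Sum.inr (Sum.inr ⟨k, hk⟩)) else 0
  have hu : ∀ c, u c * u c = 0 := fun c => hT _
  have hw : ∀ c, w c * w c = 0 := fun c => hT _
  have hp : ∀ i, p i * p i = 0 := fun i => hT _
  have hb : ∀ k, b k * b k = 0 := by
    intro k
    simp only [b]
    split_ifs
    · exact hT _
    · exact mul_zero _
  have hbk : ∀ k : Fin (dd R Q + 1), b k = T (Sum.inr (Sum.inr k)) := by
    intro k
    simp only [b, k.2, dif_pos]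
  obtain ⟨η, hη⟩ : ∃ η : B, η = f (algebraMap F A h) := ⟨_, rfl⟩
  have hη2 : 2 * η = 1 := by
    have h1 : f (algebraMap F A (2 * h)) = 1 := by rw [hh, map_one, map_one]
    rw [map_mul, map_mul, map_ofNat, map_ofNat] at h1
    rw [hη]
    exact h1
  -- the rows of letters
  have r1 : ∀ i : Row R Q, ∑ j, f (mm e e' h s x t (Sum.inl i) j) * T j =
      (∑ c, f (x (i, c)) * prt u w (tyR i) c) + p i := by
    intro i
    have m1 : ∀ c, mm e e' h s x t (Sum.inl i) (Sum.inl (Sum.inl c)) =
        if tyR i then x (i, c) else 0 := by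
      intro c
      unfold mm
      rw [if_neg (by simp [zr]), add_zero]
      show algebraMap F A 0 + (if tyR i then some (i, c) else none : Option _).elim 0 x = _
      rw [map_zero, zero_add]
      split_ifs <;> rfl
    have m2 : ∀ c, mm e e' h s x t (Sum.inl i) (Sum.inl (Sum.inr c)) =
        if tyR i then 0 else x (i, c) := by
      intro c
      unfold mm
      rw [if_neg (by simp [zr]), add_zero]
      show algebraMap F A 0 + (if tyR i then none else some (i, c) : Option _).elim 0 x = _
      rw [map_zero, zero_add]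
      split_ifs <;> rfl
    have m3 : ∀ j, mm e e' h s x t (Sum.inl i) (Sum.inr (Sum.inl j)) =
        if i = j then 1 else 0 := by
      intro j
      unfold mm
      rw [if_neg (by simp [zr]), add_zero]
      show algebraMap F A (if i = j then 1 else 0) + 0 = _
      split_ifs <;> simp
    have m4 : ∀ k, mm e e' h s x t (Sum.inl i) (Sum.inr (Sum.inr k)) = 0 := by
      intro k
      unfold mm
      rw [if_neg (by simp [zr]), add_zero]
      show algebraMap F A 0 + 0 = _
      simp
    rw [sum_CI T (fun j => f (mm e e' h s x t (Sum.inl i) j))]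
    simp only [m1, m2, m3, m4, map_zero, zero_mul, sum_const_zero, add_zero]
    congr 1
    · rw [← sum_add_distrib]
      refine sum_congr rfl fun c _ => ?_
      show f (if tyR i then x (i, c) else 0) * u c + f (if tyR i then 0 else x (i, c)) * w c = _
      unfold prt
      split_ifs <;> simp
    · have : ∀ j, f (if i = j then 1 else 0) * T (Sum.inr (Sum.inl j)) =
          if i = j then p j else 0 := by
        intro j
        split_ifs
        · rw [map_one, one_mul]
        · rw [map_zero, zero_mul]
      rw [sum_congr rfl fun j _ => this j, sum_ite_eq, if_pos (mem_univ _)]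
  -- the rows of the pairs
  have r2 : ∀ (g : Fin (R + Q)) (a : Bool),
      ∑ j, f (mm e e' h s x t (Sum.inr (Sum.inl (g, a))) j) * T j =
        (if a then 1 else -η) * (u (g, false) + u (g, true)) +
          (if a then 1 else η) * (w (g, false) + w (g, true)) := by
    intro g a
    have m1 : ∀ c : Col R Q, f (mm e e' h s x t (Sum.inr (Sum.inl (g, a))) (Sum.inl (Sum.inl c))) =
        if g = c.1 then (if a then 1 else -η) else 0 := by
      intro c
      unfold mm
      rw [if_neg (by simp [zr]), add_zero]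
      show f (algebraMap F A (if g = c.1 then (if a then 1 else -h) else 0) + 0) = _
      rw [add_zero, hη]
      split_ifs <;> simp
    have m2 : ∀ c : Col R Q, f (mm e e' h s x t (Sum.inr (Sum.inl (g, a))) (Sum.inl (Sum.inr c))) =
        if g = c.1 then (if a then 1 else η) else 0 := by
      intro c
      unfold mm
      rw [if_neg (by simp [zr]), add_zero]
      show f (algebraMap F A (if g = c.1 then (if a then 1 else h) else 0) + 0) = _
      rw [add_zero, hη]
      split_ifs <;> simp
    have m3 : ∀ j, mm e e' h s x t (Sum.inr (Sum.inl (g, a))) (Sum.inr j) = 0 := by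
      intro j
      unfold mm
      rw [if_neg (by simp [zr]), add_zero]
      show algebraMap F A 0 + 0 = _
      simp
    have key : ∀ (v : Col R Q → B) (y : B), ∑ c : Col R Q, (if g = c.1 then y else 0) * v c =
        y * (v (g, false) + v (g, true)) := by
      intro v y
      rw [Fintype.sum_prod_type]
      have : ∀ g' : Fin (R + Q), ∑ a' : Bool, (if g = (g', a').1 then y else 0) * v (g', a') =
          if g = g' then y * (v (g', false) + v (g', true)) else 0 := by
        intro g'
        rw [Fintype.sum_bool]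
        show (if g = g' then y else 0) * v (g', true) + (if g = g' then y else 0) * v (g', false) = _
        split_ifs
        · ring
        · ring
      rw [sum_congr rfl fun g' _ => this g', sum_ite_eq, if_pos (mem_univ _)]
    rw [sum_CI T (fun j => f (mm e e' h s x t (Sum.inr (Sum.inl (g, a))) j))]
    simp only [m1, m2, m3, map_zero, zero_mul, sum_const_zero, add_zero]
    rw [← key u, ← key w]
  -- the rows of the chain
  have r3 : ∀ (i : Fin (dd R Q)) (a : Bool),
      ∑ j, f (mm e e' h s x t (Sum.inr (Sum.inr (Sum.inl (i, a)))) j) * T j =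
        (if a then 1 else η) * (u (e' i) + b i) + (if a then 1 else -η) * (p (e i) + b (i + 1)) := by
    intro i a
    have m1 : ∀ c : Col R Q, f (mm e e' h s x t (Sum.inr (Sum.inr (Sum.inl (i, a))))
        (Sum.inl (Sum.inl c))) = if e' i = c then (if a then 1 else η) else 0 := by
      intro c
      unfold mm
      rw [if_neg (by simp [zr]), add_zero]
      show f (algebraMap F A (if e' i = c then (if a then 1 else h) else 0) + 0) = _
      rw [add_zero, hη]
      split_ifs <;> simp
    have m2 : ∀ c : Col R Q, f (mm e e' h s x t (Sum.inr (Sum.inr (Sum.inl (i, a))))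
        (Sum.inl (Sum.inr c))) = 0 := by
      intro c
      unfold mm
      rw [if_neg (by simp [zr]), add_zero]
      show f (algebraMap F A 0 + 0) = _
      simp
    have m3 : ∀ j, f (mm e e' h s x t (Sum.inr (Sum.inr (Sum.inl (i, a)))) (Sum.inr (Sum.inl j))) =
        if e i = j then (if a then 1 else -η) else 0 := by
      intro j
      unfold mm
      rw [if_neg (by simp [zr]), add_zero]
      show f (algebraMap F A (if e i = j then (if a then 1 else -h) else 0) + 0) = _
      rw [add_zero, hη]
      split_ifs <;> simp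
    have m4 : ∀ k, f (mm e e' h s x t (Sum.inr (Sum.inr (Sum.inl (i, a)))) (Sum.inr (Sum.inr k))) =
        (if i.castSucc = k then (if a then 1 else η) else 0) +
          (if i.succ = k then (if a then 1 else -η) else 0) := by
      intro k
      unfold mm
      rw [if_neg (by simp [zr]), add_zero]
      show f (algebraMap F A ((if i.castSucc = k then (if a then 1 else h) else 0) +
          (if i.succ = k then (if a then 1 else -h) else 0)) + 0) = _
      rw [add_zero, hη, map_add, map_add]
      congr 1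
      · split_ifs <;> simp
      · split_ifs <;> simp
    rw [sum_CI T (fun j => f (mm e e' h s x t (Sum.inr (Sum.inr (Sum.inl (i, a)))) j))]
    simp only [m1, m2, m3, m4, zero_mul, sum_const_zero, add_zero, ite_mul, add_mul, sum_add_distrib,
      sum_ite_eq, mem_univ, if_true]
    rw [← hbk, ← hbk]
    show (if a then 1 * u (e' i) else η * u (e' i)) + ((if a then 1 * p (e i) else -η * p (e i)) +
      ((if a then 1 * b i else η * b i) + (if a then 1 * b (i + 1) else -η * b (i + 1)))) = _
    split_ifs <;> ring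
  -- the last row
  have r4 : ∑ j, f (mm e e' h s x t (Sum.inr (Sum.inr (Sum.inr ()))) j) * T j =
      f (algebraMap F A s) * b 0 + f t * b (dd R Q) := by
    have m1 : ∀ c, mm e e' h s x t (Sum.inr (Sum.inr (Sum.inr ()))) (Sum.inl c) = 0 := by
      intro c
      unfold mm
      rw [if_neg (by simp [zc]), add_zero]
      show algebraMap F A 0 + 0 = _
      simp
    have m2 : ∀ j, mm e e' h s x t (Sum.inr (Sum.inr (Sum.inr ()))) (Sum.inr (Sum.inl j)) = 0 := by
      intro j
      unfold mm
      rw [if_neg (by simp [zc]), add_zero]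
      show algebraMap F A 0 + 0 = _
      simp
    have m3 : ∀ k, f (mm e e' h s x t (Sum.inr (Sum.inr (Sum.inr ()))) (Sum.inr (Sum.inr k))) =
        (if (0 : Fin (dd R Q + 1)) = k then f (algebraMap F A s) else 0) +
          if Fin.last _ = k then f t else 0 := by
      intro k
      unfold mm
      have e1 : ((Sum.inr (Sum.inr (Sum.inr ())) : RI R Q) = zr ∧
          (Sum.inr (Sum.inr k) : CI R Q) = zc) ↔ Fin.last _ = k := by
        unfold zr zc
        constructor
        · rintro ⟨_, h2⟩
          exact (Sum.inr_injective (Sum.inr_injective h2)).symm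
        · intro h2
          exact ⟨rfl, by rw [h2]⟩
      simp only [e1]
      show f (algebraMap F A (if (0 : Fin (dd R Q + 1)) = k then s else 0) + 0 + _) = _
      rw [add_zero, map_add]
      congr 1
      · split_ifs <;> simp
      · split_ifs <;> simp
    rw [sum_CI T (fun j => f (mm e e' h s x t (Sum.inr (Sum.inr (Sum.inr ()))) j))]
    simp only [m1, m2, m3, map_zero, zero_mul, sum_const_zero, add_zero, zero_add, ite_mul, add_mul,
      sum_add_distrib, sum_ite_eq, mem_univ, if_true]
    rw [← hbk, ← hbk]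
    rfl
  have hprod : ∏ j, T j = (∏ c, u c) * (∏ c, w c) * (∏ i, p i) *
      ∏ j ∈ range (dd R Q + 1), b j := by
    rw [Fintype.prod_sum_type, Fintype.prod_sum_type, Fintype.prod_sum_type,
      ← Fin.prod_univ_eq_prod_range (fun i => b i) (dd R Q + 1)]
    rw [prod_congr rfl fun k _ => hbk k]
    ring
  rw [prod_RI (fun i => ∑ j, f (mm e e' h s x t i j) * T j), prod_congr rfl fun i _ => r1 i, hprod]
  have h2 : ∀ g : Fin (R + Q), ∏ a : Bool,
      ∑ j, f (mm e e' h s x t (Sum.inr (Sum.inl (g, a))) j) * T j = fc u w g := by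
    intro g
    rw [Fintype.prod_bool, r2, r2]
    unfold fc
    simp only [if_true, Bool.false_eq_true, if_false]
    linear_combination (η) * hw (g, false) + (η) * hw (g, true) - (η) * hu (g, false) -
      (η) * hu (g, true) + (w (g, false) * w (g, true) - u (g, false) * u (g, true)) * hη2
  have h3 : ∀ i : Fin (dd R Q), ∏ a : Bool,
      ∑ j, f (mm e e' h s x t (Sum.inr (Sum.inr (Sum.inl (i, a)))) j) * T j =
        b i * u (e' i) - p (e i) * b (i + 1) := by
    intro i
    rw [Fintype.prod_bool, r3, r3]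
    simp only [if_true, Bool.false_eq_true, if_false]
    linear_combination (η) * hu (e' i) + (η) * hb i - (η) * hp (e i) - (η) * hb (i + 1) +
      (b i * u (e' i) - p (e i) * b (i + 1)) * hη2
  rw [prod_congr rfl fun g _ => h2 g, prod_congr rfl fun i _ => h3 i]
  have h4 := mode_prod hu hw hp hb (fun l => f (x l)) e e' (f (algebraMap F A s)) (f t)
  have h5 : f (algebraMap F A (s * ((-1) ^ dd R Q * (-1) ^ Q)) *
      (∑ s ∈ Om R Q, ∏ i, x (i, s i)) + t) =
      f (algebraMap F A s) * ((-1) ^ dd R Q * (-1) ^ Q) *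
        (∑ s ∈ Om R Q, ∏ i, f (x (i, s i))) + f t := by
    simp only [map_add, map_mul, map_pow, map_neg, map_one, map_sum, map_prod]
  rw [h5, ← h4]
  rw [r4]
  ring

theorem mm_permanent (e : Fin (dd R Q) ≃ Row R Q) (e' : Fin (dd R Q) ≃ Col R Q) {h s : F}
    (hh : 2 * h = 1) (x : Row R Q × Col R Q → A) (t : A) (er : CI R Q ≃ RI R Q) :
    (Matrix.of fun i j => mm e e' h s x t (er i) j).permanent =
      algebraMap F A (s * ((-1) ^ dd R Q * (-1) ^ Q)) * (∑ s ∈ Om R Q, ∏ i, x (i, s i)) + t := by
  apply perm_of_forms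
  intro B _ f T hT
  rw [← mm_forms e e' hh x t f T hT,
    ← Equiv.prod_comp er (fun i => ∑ j, f (mm e e' h s x t i j) * T j)]
  rfl

end mat

/-- **row Y1** -/
theorem perm_mode (F : Type) [Field F] [CharZero F] (R Q n : ℕ) (hn : 8 * (R + Q) + 1 ≤ n)
    (z : Fin n) :
    ∃ (C0 : Fin n × Fin n → F) (D : Fin n × Fin n → Option (Row R Q × Col R Q)),
      ∀ t : MvPolynomial (Row R Q × Col R Q) F,
        MvPolynomial.aeval (fun p => (MvPolynomial.C (C0 p) : MvPolynomial _ F) +
          (D p).elim 0 MvPolynomial.X + if p = (z, z) then t else 0) (Pool.CDep.permP n F) =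
        t + codeQ (Om R Q) F := by
  classical
  obtain ⟨e⟩ : Nonempty (Fin (dd R Q) ≃ Row R Q) := ⟨Fintype.equivOfCardEq (by
    simp only [Row, dd, Fintype.card_sum, Fintype.card_fin]
    ring)⟩
  obtain ⟨e'⟩ : Nonempty (Fin (dd R Q) ≃ Col R Q) := ⟨Fintype.equivOfCardEq (by
    simp only [Col, dd, Fintype.card_prod, Fintype.card_fin, Fintype.card_bool]
    ring)⟩
  obtain ⟨er0⟩ : Nonempty (CI R Q ≃ RI R Q) := ⟨Fintype.equivOfCardEq (by
    rw [card_CI, card_RI])⟩
  let er : CI R Q ≃ RI R Q := (Equiv.swap zc (er0.symm zr)).trans er0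
  have her : er zc = zr := by
    show er0 (Equiv.swap zc (er0.symm zr) zc) = zr
    rw [Equiv.swap_apply_left, Equiv.apply_symm_apply]
  have her' : ∀ i, er i = zr ↔ i = zc := fun i => by
    rw [← her]
    exact er.injective.eq_iff
  have hn' : Fintype.card (CI R Q ⊕ Fin (n - (8 * (R + Q) + 1))) = n := by
    rw [Fintype.card_sum, card_CI, Fintype.card_fin]
    omega
  let e0 : Fin n ≃ CI R Q ⊕ Fin (n - (8 * (R + Q) + 1)) :=
    (finCongr hn'.symm).trans (Fintype.equivFin _).symm
  let E : Fin n ≃ CI R Q ⊕ Fin (n - (8 * (R + Q) + 1)) :=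
    (Equiv.swap z (e0.symm (Sum.inl zc))).trans e0
  have hE : E z = Sum.inl zc := by
    show e0 (Equiv.swap z (e0.symm (Sum.inl zc)) z) = Sum.inl zc
    rw [Equiv.swap_apply_left, Equiv.apply_symm_apply]
  have hE' : ∀ i, E i = Sum.inl zc ↔ i = z := fun i => by
    rw [← hE]
    exact E.injective.eq_iff
  obtain ⟨s, hs⟩ : ∃ s : F, s = (-1) ^ dd R Q * (-1) ^ Q := ⟨_, rfl⟩
  have hs1 : s * ((-1) ^ dd R Q * (-1) ^ Q) = 1 := by
    rw [hs, mul_mul_mul_comm, ← mul_pow, ← mul_pow]
    simp
  have hh : 2 * (1 / 2 : F) = 1 := by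
    rw [mul_one_div_cancel]
    exact two_ne_zero
  let C1 : CI R Q ⊕ Fin (n - (8 * (R + Q) + 1)) → CI R Q ⊕ Fin (n - (8 * (R + Q) + 1)) → F :=
    fun i j => match i, j with
      | Sum.inl i, Sum.inl j => c0 e e' (1 / 2) s (er i) j
      | Sum.inr i, Sum.inr j => if i = j then 1 else 0
      | _, _ => 0
  let D1 : CI R Q ⊕ Fin (n - (8 * (R + Q) + 1)) → CI R Q ⊕ Fin (n - (8 * (R + Q) + 1)) →
      Option (Row R Q × Col R Q) :=
    fun i j => match i, j with
      | Sum.inl i, Sum.inl j => dl (er i) j
      | _, _ => none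
  refine ⟨fun p => C1 (E p.1) (E p.2), fun p => D1 (E p.1) (E p.2), fun t => ?_⟩
  have h1 := mm_permanent (A := MvPolynomial (Row R Q × Col R Q) F) (s := s) e e' hh
    (MvPolynomial.X : Row R Q × Col R Q → MvPolynomial (Row R Q × Col R Q) F) t er
  rw [hs1, map_one, one_mul] at h1
  have h2 : (MvPolynomial.aeval (fun p : Fin n × Fin n =>
      (MvPolynomial.C (C1 (E p.1) (E p.2)) : MvPolynomial (Row R Q × Col R Q) F) +
      (D1 (E p.1) (E p.2)).elim 0 MvPolynomial.X + if p = (z, z) then t else 0)
      (Pool.CDep.permP n F)) =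
      (Matrix.of fun i j : Fin n => (padM (Fin (n - (8 * (R + Q) + 1))) (Matrix.of fun i j =>
        mm e e' (1 / 2 : F) s (MvPolynomial.X : Row R Q × Col R Q → MvPolynomial _ F) t (er i) j))
        (E i) (E j)).permanent := by
    rw [Pool.XM.aeval_permP]
    congr 1
    refine Matrix.ext fun i j => ?_
    rw [Matrix.of_apply, Matrix.of_apply]
    have h3 : ((i, j) = (z, z)) ↔ (E i = Sum.inl zc ∧ E j = Sum.inl zc) := by
      rw [hE', hE', Prod.mk.injEq]
    simp only [h3]
    rcases E i with i' | i' <;> rcases E j with j' | j'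
    · show MvPolynomial.C (c0 e e' (1 / 2) s (er i') j') + (dl (er i') j').elim 0 MvPolynomial.X +
        (if Sum.inl i' = Sum.inl zc ∧ Sum.inl j' = Sum.inl zc then t else 0) =
        mm e e' (1 / 2 : F) s (MvPolynomial.X : Row R Q × Col R Q → MvPolynomial _ F) t (er i') j'
      unfold mm
      simp only [her', Sum.inl.injEq]
      rfl
    · show MvPolynomial.C (0 : F) + 0 + (if _ ∧ Sum.inr j' = Sum.inl zc then t else 0) = 0
      simp
    · show MvPolynomial.C (0 : F) + 0 + (if Sum.inr i' = Sum.inl zc ∧ _ then t else 0) = 0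
      simp
    · show MvPolynomial.C (if i' = j' then 1 else 0 : F) + 0 +
        (if Sum.inr i' = Sum.inl zc ∧ _ then t else 0) = if i' = j' then 1 else 0
      split_ifs <;> simp_all
  rw [h2, permanent_reindex E E, padM_permanent, h1]
  unfold codeQ
  rw [add_comm]

end Pool.XMP
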